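import Mathlib

/-!
# Weak Mertens bounds

`log log N - 1 ≤ ∑_{p < N} 1/p` and `∑_{p < N} 1/p ≤ 4 log log N + C`.
-/

namespace Pool.Agent.Lib.MP_e3f158_nt

open Finset

/-- The completely multiplicative function `n ↦ 1/n`. -/
noncomputable def invHom : ℕ →* ℝ where
  toFun n := (n : ℝ)⁻¹
  map_one' := by simp
  map_mul' a b := by push_cast; rw [mul_inv]

theorem harmonic_le_prod (N : ℕ) :
    ∑ m ∈ Ico 1 N, ((m : ℝ)⁻¹) ≤ ∏ p ∈ N.primesBelow, (1 - (p : ℝ)⁻¹)⁻¹ := by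
  have h := EulerProduct.summable_and_hasSum_smoothNumbers_prod_primesBelow_geometric
    (f := invHom) (fun {p} hp => by
      have h1 : (2 : ℝ) ≤ p := by exact_mod_cast hp.two_le
      change ‖(p : ℝ)⁻¹‖ < 1
      rw [norm_inv, Real.norm_of_nonneg (by linarith)]
      exact inv_lt_one_of_one_lt₀ (by linarith)) N
  have h2 := h.2
  have hmem : ∀ m ∈ Ico 1 N, m ∈ Nat.smoothNumbers N := by
    intro m hm
    rw [mem_Ico] at hm
    rw [Nat.mem_smoothNumbers']
    intro p hp hd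
    exact lt_of_le_of_lt (Nat.le_of_dvd (by omega) hd) hm.2
  classical
  have h3 : ∑ m ∈ Ico 1 N, ((m : ℝ)⁻¹) =
      ∑ m ∈ (Ico 1 N).attach.map ⟨fun m => (⟨m.1, hmem m.1 m.2⟩ : Nat.smoothNumbers N),
        fun a b hab => Subtype.ext (congrArg (fun x => x.1) hab)⟩, invHom m.1 := by
    rw [sum_map]
    rw [← sum_attach]
    rfl
  rw [h3]
  exact sum_le_hasSum _ (fun m _ => by
    change (0 : ℝ) ≤ ((m : ℕ) : ℝ)⁻¹
    positivity) h2

theorem log_le_prod (N : ℕ) (hN : 1 ≤ N) :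
    Real.log N ≤ ∏ p ∈ N.primesBelow, (1 - (p : ℝ)⁻¹)⁻¹ := by
  refine le_trans ?_ (harmonic_le_prod N)
  obtain ⟨n, rfl⟩ : ∃ n, N = n + 1 := ⟨N - 1, by omega⟩
  refine (log_add_one_le_harmonic n).trans (le_of_eq ?_)
  rw [harmonic_eq_sum_Icc]
  push_cast
  refine sum_congr ?_ fun _ _ => rfl
  ext m
  simp only [mem_Icc, mem_Ico]
  omega

theorem sum_tail (N : ℕ) : ∑ n ∈ Ico 2 (N + 2), (1 : ℝ) / (n * (n - 1)) ≤ 1 - 1 / (N + 1) := by
  induction N with
  | zero => simp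
  | succ n ih =>
    rw [show n + 1 + 2 = (n + 2) + 1 by ring, sum_Ico_succ_top (by omega)]
    refine (add_le_add_left ih _).trans (le_of_eq ?_)
    push_cast
    have h1 : (n : ℝ) + 1 ≠ 0 := by positivity
    have h2 : (n : ℝ) + 2 ≠ 0 := by positivity
    have h3 : (n : ℝ) + 2 - 1 ≠ 0 := by
      have : (n : ℝ) + 2 - 1 = n + 1 := by ring
      rw [this]; exact h1
    have h4 : (n : ℝ) + 1 + 1 ≠ 0 := by positivity
    field_simp
    ring

/-- Lower bound for the sum of the reciprocals of the primes. -/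
theorem sum_inv_ge (N : ℕ) (hN : 2 ≤ N) :
    Real.log (Real.log N) - 1 ≤ ∑ p ∈ N.primesBelow, (1 : ℝ) / p := by
  have hNr : (2 : ℝ) ≤ N := by exact_mod_cast hN
  have hlog : 0 < Real.log N := Real.log_pos (by linarith)
  have h1 := log_le_prod N (by omega)
  have hpos : ∀ p ∈ N.primesBelow, 0 < 1 - (p : ℝ)⁻¹ := by
    intro p hp
    have h2 : (2 : ℝ) ≤ p := by exact_mod_cast (Nat.prime_of_mem_primesBelow hp).two_le
    have h3 : (p : ℝ)⁻¹ < 1 := inv_lt_one_of_one_lt₀ (by linarith)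
    linarith
  have h2 : Real.log (Real.log N) ≤ ∑ p ∈ N.primesBelow, Real.log ((1 - (p : ℝ)⁻¹)⁻¹) := by
    rw [← Real.log_prod (fun p hp => (inv_pos.2 (hpos p hp)).ne')]
    exact Real.log_le_log hlog h1
  have h3 : ∀ p ∈ N.primesBelow, Real.log ((1 - (p : ℝ)⁻¹)⁻¹) ≤
      (1 : ℝ) / p + 1 / (p * (p - 1)) := by
    intro p hp
    have h4 : (2 : ℝ) ≤ p := by exact_mod_cast (Nat.prime_of_mem_primesBelow hp).two_le
    have h5 := Real.log_le_sub_one_of_pos (inv_pos.2 (hpos p hp))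
    refine h5.trans (le_of_eq ?_)
    have h6 : (p : ℝ) ≠ 0 := by linarith
    have h7 : (p : ℝ) - 1 ≠ 0 := by
      have : (0 : ℝ) < p - 1 := by linarith
      exact this.ne'
    have h8 : (1 - (p : ℝ)⁻¹) = (p - 1) / p := by field_simp
    rw [h8, inv_div]
    field_simp
    ring
  have h4 := h2.trans (sum_le_sum h3)
  rw [sum_add_distrib] at h4
  have h5 : ∑ p ∈ N.primesBelow, (1 : ℝ) / (p * (p - 1)) ≤ 1 := by
    obtain ⟨n, rfl⟩ : ∃ n, N = n + 2 := ⟨N - 2, by omega⟩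
    have h6 : ∑ p ∈ (n + 2).primesBelow, (1 : ℝ) / (p * (p - 1)) ≤
        ∑ k ∈ Ico 2 (n + 2), (1 : ℝ) / (k * (k - 1)) := by
      refine sum_le_sum_of_subset_of_nonneg ?_ ?_
      · intro p hp
        rw [mem_Ico]
        exact ⟨(Nat.prime_of_mem_primesBelow hp).two_le, Nat.lt_of_mem_primesBelow hp⟩
      · intro k hk _
        have h7 : (2 : ℝ) ≤ k := by exact_mod_cast (mem_Ico.1 hk).1
        have h8 : (0 : ℝ) ≤ k - 1 := by linarith
        positivity
    refine h6.trans ((sum_tail n).trans ?_)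
    have : (0 : ℝ) ≤ 1 / ((n : ℝ) + 1) := by positivity
    linarith
  linarith

/-- Primes in `[2^k, 2^(k+1))`. -/
theorem dyadic_card (k : ℕ) :
    k * ((Ico (2 ^ k) (2 ^ (k + 1))).filter Nat.Prime).card ≤ 2 ^ (k + 2) := by
  set A := (Ico (2 ^ k) (2 ^ (k + 1))).filter Nat.Prime with hA
  have h1 : (2 ^ k) ^ A.card ≤ ∏ p ∈ A, p := by
    rw [← prod_const]
    exact prod_le_prod' fun p hp => (mem_Ico.1 (mem_filter.1 hp).1).1
  have h2 : ∏ p ∈ A, p ≤ primorial (2 ^ (k + 1)) := by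
    rw [primorial]
    refine Finset.prod_le_prod_of_subset_of_one_le' ?_ ?_
    · intro p hp
      have := mem_filter.1 hp
      rw [mem_filter, mem_range]
      exact ⟨Nat.lt_succ_of_le (mem_Ico.1 this.1).2.le, this.2⟩
    · intro p hp _
      exact (mem_filter.1 hp).2.pos
  have h3 := (h1.trans h2).trans (primorial_le_four_pow _)
  rw [← pow_mul, show (4 : ℕ) = 2 ^ 2 by norm_num, ← pow_mul] at h3
  have h4 := (Nat.pow_le_pow_iff_right (by norm_num : 1 < 2)).1 h3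
  calc k * A.card ≤ 2 * 2 ^ (k + 1) := h4
    _ = 2 ^ (k + 2) := by ring

theorem dyadic_sum (k : ℕ) (hk : 1 ≤ k) :
    ∑ p ∈ Nat.primesBelow (2 ^ k), (1 : ℝ) / p ≤ 4 * ∑ i ∈ Ico 1 k, ((i : ℝ)⁻¹) := by
  induction k, hk using Nat.le_induction with
  | base => simp
  | succ k hk ih =>
    have h1 : Nat.primesBelow (2 ^ (k + 1)) =
        Nat.primesBelow (2 ^ k) ∪ (Ico (2 ^ k) (2 ^ (k + 1))).filter Nat.Prime := by
      ext p
      simp only [Nat.mem_primesBelow, mem_union, mem_filter, mem_Ico]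
      have : 2 ^ (k + 1) = 2 * 2 ^ k := by ring
      constructor
      · rintro ⟨h1, h2⟩
        by_cases h : p < 2 ^ k
        · exact Or.inl ⟨h, h2⟩
        · exact Or.inr ⟨⟨by omega, h1⟩, h2⟩
      · rintro (⟨h1, h2⟩ | ⟨h1, h2⟩)
        · exact ⟨by omega, h2⟩
        · exact ⟨h1.2, h2⟩
    have h2 : Disjoint (Nat.primesBelow (2 ^ k)) ((Ico (2 ^ k) (2 ^ (k + 1))).filter Nat.Prime) := by
      rw [Finset.disjoint_left]
      intro p hp hp'
      have h3 := Nat.lt_of_mem_primesBelow hp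
      have h4 := (mem_Ico.1 (mem_filter.1 hp').1).1
      omega
    rw [h1, sum_union h2, sum_Ico_succ_top (by omega), mul_add]
    refine add_le_add ih ?_
    have h3 : ∑ p ∈ (Ico (2 ^ k) (2 ^ (k + 1))).filter Nat.Prime, (1 : ℝ) / p ≤
        ∑ p ∈ (Ico (2 ^ k) (2 ^ (k + 1))).filter Nat.Prime, (1 : ℝ) / 2 ^ k := by
      refine sum_le_sum fun p hp => ?_
      have h4 : ((2 ^ k : ℕ) : ℝ) ≤ p := by exact_mod_cast (mem_Ico.1 (mem_filter.1 hp).1).1
      push_cast at h4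
      exact one_div_le_one_div_of_le (by positivity) h4
    refine h3.trans ?_
    rw [sum_const, nsmul_eq_mul]
    have h4 := dyadic_card k
    have h5 : (k : ℝ) * (((Ico (2 ^ k) (2 ^ (k + 1))).filter Nat.Prime).card : ℝ) ≤ 2 ^ (k + 2) := by
      exact_mod_cast h4
    have hk0 : (0 : ℝ) < k := by exact_mod_cast hk
    rw [mul_one_div, div_le_iff₀ (by positivity), ← div_eq_mul_inv, div_mul_eq_mul_div,
      le_div_iff₀ hk0]
    calc _ = (k : ℝ) * (((Ico (2 ^ k) (2 ^ (k + 1))).filter Nat.Prime).card : ℝ) := by ring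
      _ ≤ 2 ^ (k + 2) := h5
      _ = 4 * 2 ^ k := by ring

/-- Upper bound for the sum of the reciprocals of the primes. -/
theorem sum_inv_le (N : ℕ) (hN : 3 ≤ N) :
    ∑ p ∈ N.primesBelow, (1 : ℝ) / p ≤ 4 * Real.log (Real.log N) + 8 := by
  have hNr : (3 : ℝ) ≤ N := by exact_mod_cast hN
  have hlog1 : 1 < Real.log N := by
    rw [Real.lt_log_iff_exp_lt (by linarith)]
    have := Real.exp_one_lt_d9
    linarith
  set k := Nat.log 2 N + 1 with hk
  have h1 : N < 2 ^ k := Nat.lt_pow_succ_log_self (by norm_num) N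
  have h2 : ∑ p ∈ N.primesBelow, (1 : ℝ) / p ≤ ∑ p ∈ Nat.primesBelow (2 ^ k), (1 : ℝ) / p := by
    refine sum_le_sum_of_subset_of_nonneg ?_ fun p _ _ => by positivity
    intro p hp
    rw [Nat.mem_primesBelow] at hp ⊢
    exact ⟨hp.1.trans h1, hp.2⟩
  have h3 := dyadic_sum k (by omega)
  have h4 : ∑ i ∈ Ico 1 k, ((i : ℝ)⁻¹) = (harmonic (Nat.log 2 N) : ℝ) := by
    rw [harmonic_eq_sum_Icc]
    push_cast
    refine sum_congr ?_ fun _ _ => rfl
    ext m
    simp only [mem_Icc, mem_Ico]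
    omega
  have h5 := harmonic_le_one_add_log (Nat.log 2 N)
  have hl1 : 1 ≤ Nat.log 2 N := Nat.log_pos (by norm_num) (by omega)
  have h6 : (Nat.log 2 N : ℝ) ≤ Real.log N / Real.log 2 := by
    have h7 : (2 : ℝ) ^ (Nat.log 2 N) ≤ N := by
      exact_mod_cast Nat.pow_log_le_self 2 (by omega)
    have h8 := Real.log_le_log (by positivity) h7
    rw [Real.log_pow] at h8
    rw [le_div_iff₀ (Real.log_pos (by norm_num))]
    exact h8
  have h7 : Real.log (Nat.log 2 N : ℝ) ≤ Real.log (Real.log N) + 1 := by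
    have h8 : Real.log (Nat.log 2 N : ℝ) ≤ Real.log (Real.log N / Real.log 2) :=
      Real.log_le_log (by exact_mod_cast hl1) h6
    have h9 := Real.log_two_gt_d9
    rw [Real.log_div (by linarith) (by linarith)] at h8
    have h10 : -1 ≤ Real.log (Real.log 2) := by
      rw [Real.le_log_iff_exp_le (by linarith), Real.exp_neg]
      have h11 : (2 : ℝ) ≤ Real.exp 1 := by
        have := Real.add_one_le_exp 1
        linarith
      calc (Real.exp 1)⁻¹ ≤ 2⁻¹ := inv_anti₀ (by norm_num) h11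
        _ ≤ Real.log 2 := by linarith
    linarith
  rw [h4] at h3
  linarith

end Pool.Agent.Lib.MP_e3f158_nt
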