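import Mathlib

/-!
# Brun's pure sieve for tuples

Upper bound for the number of `m < N` such that no prime of a finite set `P` of primes `> w`
divides any of the numbers `m + h`, `h ∈ S`, where `S ⊆ [0, w]`.
-/

namespace Pool.Agent.Lib.MP_e3f158_nt

open Finset

/-- Counting a residue class below `N`. -/
theorem card_class (N M v : ℕ) (hM : 0 < M) :
    |(((range N).filter fun m => m ≡ v [MOD M]).card : ℝ) - (N : ℝ) / M| ≤ 1 := by
  have h1 : ((range N).filter fun m => m ≡ v [MOD M]).card = N.count (· ≡ v [MOD M]) :=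
    (Nat.count_eq_card_filter_range _ _).symm
  rw [h1, Nat.count_modEq_card N hM v]
  have hMr : (0 : ℝ) < M := by exact_mod_cast hM
  have h2 : (N : ℝ) = M * ((N / M : ℕ) : ℝ) + ((N % M : ℕ) : ℝ) := by
    exact_mod_cast (Nat.div_add_mod N M).symm
  have h3 : ((N % M : ℕ) : ℝ) < M := by exact_mod_cast Nat.mod_lt N hM
  have h4 : (0 : ℝ) ≤ ((N % M : ℕ) : ℝ) := by positivity
  have h5 : (N : ℝ) / M = ((N / M : ℕ) : ℝ) + ((N % M : ℕ) : ℝ) / M := by
    rw [eq_comm]
    field_simp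
    linarith
  have h6 : ((N % M : ℕ) : ℝ) / M < 1 := by rw [div_lt_one hMr]; exact h3
  have h7 : (0 : ℝ) ≤ ((N % M : ℕ) : ℝ) / M := by positivity
  rw [h5]
  push_cast
  by_cases h8 : v % M < N % M
  · rw [if_pos h8, abs_le]
    constructor <;> linarith
  · rw [if_neg h8, abs_le]
    constructor <;> linarith

/-- The number of `m < N` in a residue class mod `M` such that every `p ∈ D` divides some
`m + h`. -/
theorem card_div (N w : ℕ) (S : Finset ℕ) (hS : ∀ h ∈ S, h ≤ w) (D : Finset ℕ)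
    (hD : ∀ p ∈ D, p.Prime ∧ w < p) :
    ∀ M v : ℕ, 0 < M → (∀ p ∈ D, Nat.Coprime M p) →
    |(((range N).filter fun m => m ≡ v [MOD M] ∧ ∀ p ∈ D, ∃ h ∈ S, p ∣ m + h).card : ℝ) -
      (N : ℝ) * (S.card : ℝ) ^ D.card / (M * ∏ p ∈ D, (p : ℝ))| ≤ (S.card : ℝ) ^ D.card := by
  classical
  induction D using Finset.induction_on with
  | empty =>
    intro M v hM _
    simpa using card_class N M v hM
  | insert q D hq ih =>
    intro M v hM hcop
    have hD' : ∀ p ∈ D, p.Prime ∧ w < p := fun p hp => hD p (mem_insert_of_mem hp)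
    obtain ⟨hqp, hqw⟩ := hD q (mem_insert_self q D)
    have hMq : Nat.Coprime M q := hcop q (mem_insert_self q D)
    have ih' := ih hD'
    -- for each h the class
    have hcrt : ∀ h : ℕ, ∃ c : ℕ, ∀ m : ℕ, (m ≡ v [MOD M] ∧ q ∣ m + h) ↔ m ≡ c [MOD (M * q)] := by
      intro h
      obtain ⟨e, he⟩ : ∃ e : ℕ, q ∣ e + h := by
        refine ⟨(q - 1) * h, ?_⟩
        have : (q - 1) * h + h = q * h := by
          have := hqp.pos
          obtain ⟨t, rfl⟩ : ∃ t, q = t + 1 := ⟨q - 1, by omega⟩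
          simp only [Nat.add_sub_cancel]
          ring
        rw [this]
        exact dvd_mul_right _ _
      obtain ⟨c, hc1, hc2⟩ := Nat.chineseRemainder hMq v e
      refine ⟨c, fun m => ?_⟩
      have key : q ∣ m + h ↔ m ≡ e [MOD q] := by
        constructor
        · intro hd
          have h1 : m + h ≡ e + h [MOD q] := by
            rw [Nat.ModEq, Nat.mod_eq_zero_of_dvd hd, Nat.mod_eq_zero_of_dvd he]
          exact Nat.ModEq.add_right_cancel' h h1
        · intro hm
          have h1 : m + h ≡ e + h [MOD q] := Nat.ModEq.add_right h hm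
          have h2 : (e + h) % q = 0 := Nat.mod_eq_zero_of_dvd he
          rw [Nat.ModEq, h2] at h1
          exact Nat.dvd_of_mod_eq_zero h1
      rw [key, ← Nat.modEq_and_modEq_iff_modEq_mul hMq]
      constructor
      · rintro ⟨h1, h2⟩
        exact ⟨h1.trans hc1.symm, h2.trans hc2.symm⟩
      · rintro ⟨h1, h2⟩
        exact ⟨h1.trans hc1, h2.trans hc2⟩
    choose c hc using hcrt
    have hMq0 : 0 < M * q := Nat.mul_pos hM hqp.pos
    have hcop' : ∀ p ∈ D, Nat.Coprime (M * q) p := by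
      intro p hp
      refine Nat.Coprime.mul_left (hcop p (mem_insert_of_mem hp)) ?_
      refine (Nat.coprime_primes hqp (hD' p hp).1).2 ?_
      rintro rfl
      exact hq hp
    have hsplit : (range N).filter (fun m => m ≡ v [MOD M] ∧ ∀ p ∈ insert q D, ∃ h ∈ S, p ∣ m + h) =
        S.biUnion fun h => (range N).filter fun m => m ≡ c h [MOD (M * q)] ∧
          ∀ p ∈ D, ∃ h ∈ S, p ∣ m + h := by
      ext m
      simp only [mem_filter, mem_range, mem_biUnion, mem_insert, forall_eq_or_imp]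
      constructor
      · rintro ⟨hm, hv, ⟨h, hh, hqd⟩, hall⟩
        exact ⟨h, hh, hm, (hc h m).1 ⟨hv, hqd⟩, hall⟩
      · rintro ⟨h, hh, hm, hmod, hall⟩
        obtain ⟨h1, h2⟩ := (hc h m).2 hmod
        exact ⟨hm, h1, ⟨h, hh, h2⟩, hall⟩
    have hdisj : ∀ h ∈ S, ∀ h' ∈ S, h ≠ h' → Disjoint
        ((range N).filter fun m => m ≡ c h [MOD (M * q)] ∧ ∀ p ∈ D, ∃ h ∈ S, p ∣ m + h)
        ((range N).filter fun m => m ≡ c h' [MOD (M * q)] ∧ ∀ p ∈ D, ∃ h ∈ S, p ∣ m + h) := by
      intro h hh h' hh' hne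
      rw [Finset.disjoint_left]
      intro m hm hm'
      simp only [mem_filter] at hm hm'
      have h1 := ((hc h m).2 hm.2.1).2
      have h2 := ((hc h' m).2 hm'.2.1).2
      have h3 := hS h hh
      have h4 := hS h' hh'
      rcases lt_or_gt_of_ne hne with hlt | hlt
      · have h5 : q ∣ h' - h := by
          have := Nat.dvd_sub h2 h1
          rwa [Nat.add_sub_add_left] at this
        have := Nat.le_of_dvd (by omega) h5
        omega
      · have h5 : q ∣ h - h' := by
          have := Nat.dvd_sub h1 h2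
          rwa [Nat.add_sub_add_left] at this
        have := Nat.le_of_dvd (by omega) h5
        omega
    rw [hsplit, card_biUnion hdisj, card_insert_of_notMem hq, prod_insert hq]
    push_cast
    have hb : ∀ h ∈ S, |(((range N).filter fun m => m ≡ c h [MOD (M * q)] ∧
          ∀ p ∈ D, ∃ h ∈ S, p ∣ m + h).card : ℝ) -
        (N : ℝ) * (S.card : ℝ) ^ D.card / (((M * q : ℕ) : ℝ) * ∏ p ∈ D, (p : ℝ))| ≤
          (S.card : ℝ) ^ D.card := fun h _ => ih' (M * q) (c h) hMq0 hcop'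
    have e1 : (N : ℝ) * (S.card : ℝ) ^ (D.card + 1) / (M * (q * ∏ p ∈ D, (p : ℝ))) =
        ∑ h ∈ S, (N : ℝ) * (S.card : ℝ) ^ D.card / (((M * q : ℕ) : ℝ) * ∏ p ∈ D, (p : ℝ)) := by
      rw [sum_const, nsmul_eq_mul]
      push_cast
      ring
    rw [e1, ← sum_sub_distrib]
    calc _ ≤ ∑ h ∈ S, _ := abs_sum_le_sum_abs _ _
      _ ≤ ∑ h ∈ S, (S.card : ℝ) ^ D.card := sum_le_sum hb
      _ = (S.card : ℝ) ^ (D.card + 1) := by
        rw [sum_const, nsmul_eq_mul]; ring

theorem card_div' (N w : ℕ) (S : Finset ℕ) (hS : ∀ h ∈ S, h ≤ w) (D : Finset ℕ)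
    (hD : ∀ p ∈ D, p.Prime ∧ w < p) :
    |(((range N).filter fun m => ∀ p ∈ D, ∃ h ∈ S, p ∣ m + h).card : ℝ) -
      (N : ℝ) * ∏ p ∈ D, ((S.card : ℝ) / p)| ≤ (S.card : ℝ) ^ D.card := by
  have h := card_div N w S hS D hD 1 0 one_pos (fun p _ => Nat.coprime_one_left p)
  simp only [Nat.modEq_one, true_and, Nat.cast_one, one_mul] at h
  rw [prod_div_distrib, prod_const, ← mul_div_assoc]
  exact h

/-- Bonferroni's inequality. -/
theorem bonferroni (e r : ℕ) :
    (if e = 0 then (1 : ℝ) else 0) ≤ ∑ k ∈ range (2 * r + 1), (-1 : ℝ) ^ k * (e.choose k : ℝ) := by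
  rcases Nat.eq_zero_or_pos e with h | h
  · subst h
    rw [sum_range_succ']
    simp
  · obtain ⟨n, rfl⟩ : ∃ n, e = n + 1 := ⟨e - 1, by omega⟩
    have h1 := Int.alternating_sum_range_choose_eq_choose (n := n) (m := 2 * r)
    have h2 : (∑ k ∈ range (2 * r + 1), ((-1 : ℝ) ^ k * ((n + 1).choose k : ℝ))) =
        ((n.choose (2 * r) : ℕ) : ℝ) := by
      have h3 : ((∑ k ∈ range (2 * r + 1), ((-1) ^ k * (n + 1).choose k : ℤ) : ℤ) : ℝ) =
          (((-1) ^ (2 * r) * n.choose (2 * r) : ℤ) : ℝ) := by rw [h1]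
      push_cast at h3
      rw [h3]
      simp
    rw [h2, if_neg (by omega)]
    positivity

/-- Brun's pure sieve. -/
theorem brun (N w : ℕ) (S : Finset ℕ) (hS : ∀ h ∈ S, h ≤ w) (P : Finset ℕ)
    (hP : ∀ p ∈ P, p.Prime ∧ w < p) (r : ℕ) (s : ℝ)
    (hs : s = (S.card : ℝ) * ∑ p ∈ P, (1 : ℝ) / p) (hr : 4 * s ≤ 2 * r) :
    (((range N).filter fun m => ∀ p ∈ P, ∀ h ∈ S, ¬ p ∣ m + h).card : ℝ) ≤
      2 * N * Real.exp (-s) + (1 + (S.card : ℝ) * P.card) ^ (2 * r) := by
  classical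
  set j : ℝ := (S.card : ℝ) with hj
  have hj0 : 0 ≤ j := by positivity
  have hcardS : S.card ≤ w + 1 := by
    have : S ⊆ range (w + 1) := fun h hh => mem_range.2 (Nat.lt_succ_of_le (hS h hh))
    simpa using card_le_card this
  have hx1 : ∀ p ∈ P, j / p ≤ 1 := by
    intro p hp
    have h1 := (hP p hp).2
    have h2 : (0 : ℝ) < p := by exact_mod_cast (hP p hp).1.pos
    rw [div_le_one h2, hj]
    exact_mod_cast (by omega : S.card ≤ p)
  have hx0 : ∀ p ∈ P, 0 ≤ j / p := fun p _ => by positivity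
  have hsx : s = ∑ p ∈ P, j / p := by
    rw [hs, mul_sum]
    exact sum_congr rfl fun p _ => by ring
  have hs0 : 0 ≤ s := by rw [hsx]; exact sum_nonneg hx0
  -- the counting function
  let E : ℕ → Finset ℕ := fun m => P.filter fun p => ∃ h ∈ S, p ∣ m + h
  have h1 : (((range N).filter fun m => ∀ p ∈ P, ∀ h ∈ S, ¬ p ∣ m + h).card : ℝ) ≤
      ∑ m ∈ range N, ∑ k ∈ range (2 * r + 1), (-1 : ℝ) ^ k * ((E m).card.choose k : ℝ) := by
    rw [card_filter]
    push_cast
    refine sum_le_sum fun m _ => ?_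
    refine le_trans ?_ (bonferroni (E m).card r)
    by_cases hm : ∀ p ∈ P, ∀ h ∈ S, ¬ p ∣ m + h
    · rw [if_pos hm, if_pos]
      rw [card_eq_zero, filter_eq_empty_iff]
      intro p hp
      push Not
      exact hm p hp
    · rw [if_neg hm]
      split_ifs <;> norm_num
  have h2 : ∀ k, ∑ m ∈ range N, ((E m).card.choose k : ℝ) =
      ∑ D ∈ P.powersetCard k, (((range N).filter fun m => ∀ p ∈ D, ∃ h ∈ S, p ∣ m + h).card : ℝ) := by
    intro k
    have h3 : ∀ m ∈ range N, ((E m).card.choose k : ℝ) =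
        ∑ D ∈ P.powersetCard k, if (∀ p ∈ D, ∃ h ∈ S, p ∣ m + h) then (1 : ℝ) else 0 := by
      intro m _
      rw [← card_powersetCard, ← Finset.sum_filter, sum_const, nsmul_eq_mul, mul_one]
      congr 2
      ext D
      simp only [mem_powersetCard, mem_filter, E]
      constructor
      · rintro ⟨h4, h5⟩
        refine ⟨⟨fun p hp => (mem_filter.1 (h4 hp)).1, h5⟩, fun p hp => (mem_filter.1 (h4 hp)).2⟩
      · rintro ⟨⟨h4, h5⟩, h6⟩
        exact ⟨fun p hp => mem_filter.2 ⟨h4 hp, h6 p hp⟩, h5⟩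
    rw [sum_congr rfl h3, sum_comm]
    refine sum_congr rfl fun D _ => ?_
    rw [card_filter]
    push_cast
    rfl
  rw [sum_comm] at h1
  simp_rw [← mul_sum, h2] at h1
  -- replace the counts by the main terms
  have hPD : ∀ k, ∀ D ∈ P.powersetCard k, ∀ p ∈ D, p.Prime ∧ w < p := by
    intro k D hD p hp
    exact hP p ((mem_powersetCard.1 hD).1 hp)
  have h3 : ∀ k ∈ range (2 * r + 1), (-1 : ℝ) ^ k *
      ∑ D ∈ P.powersetCard k, (((range N).filter fun m => ∀ p ∈ D, ∃ h ∈ S, p ∣ m + h).card : ℝ) ≤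
      N * ∑ D ∈ P.powersetCard k, ∏ p ∈ D, (-(j / p)) + (P.card.choose k : ℝ) * j ^ k := by
    intro k _
    have h4 : (P.card.choose k : ℝ) * j ^ k = ∑ D ∈ P.powersetCard k, j ^ k := by
      rw [sum_const, card_powersetCard, nsmul_eq_mul]
    rw [h4, mul_sum, mul_sum, ← sum_add_distrib]
    refine sum_le_sum fun D hD => ?_
    have h5 := card_div' N w S hS D (hPD k D hD)
    have h6 : D.card = k := (mem_powersetCard.1 hD).2
    rw [← hj, h6] at h5
    have h7 : ∏ p ∈ D, (-(j / (p : ℝ))) = (-1) ^ k * ∏ p ∈ D, (j / (p : ℝ)) := by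
      rw [prod_neg, h6]
    rw [h7]
    rcases Nat.even_or_odd k with hk | hk
    · rw [hk.neg_one_pow]
      have := (abs_le.1 h5).2
      linarith
    · rw [hk.neg_one_pow]
      have := (abs_le.1 h5).1
      linarith
  have h4 := h1.trans (sum_le_sum h3)
  rw [sum_add_distrib, ← mul_sum] at h4
  -- error term
  have herr : ∑ k ∈ range (2 * r + 1), (P.card.choose k : ℝ) * j ^ k ≤
      (1 + j * P.card) ^ (2 * r) := by
    rw [add_comm (1 : ℝ), add_pow]
    refine sum_le_sum fun k hk => ?_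
    have hk' : k ≤ 2 * r := Nat.lt_succ_iff.1 (mem_range.1 hk)
    have h5 : (P.card.choose k : ℝ) ≤ (P.card : ℝ) ^ k := by
      exact_mod_cast Nat.choose_le_pow P.card k
    have h6 : (1 : ℝ) ≤ ((2 * r).choose k : ℝ) := by
      exact_mod_cast Nat.choose_pos hk'
    calc (P.card.choose k : ℝ) * j ^ k ≤ (P.card : ℝ) ^ k * j ^ k := by gcongr
      _ = (j * P.card) ^ k * 1 ^ (2 * r - k) * 1 := by rw [mul_pow]; ring
      _ ≤ (j * P.card) ^ k * 1 ^ (2 * r - k) * ((2 * r).choose k : ℝ) := by gcongr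
  -- main term
  have hmain : ∑ k ∈ range (2 * r + 1), ∑ D ∈ P.powersetCard k, ∏ p ∈ D, (-(j / (p : ℝ))) ≤
      2 * Real.exp (-s) := by
    have h5 : ∑ k ∈ range (2 * r + 1), ∑ D ∈ P.powersetCard k, ∏ p ∈ D, (-(j / (p : ℝ))) =
        ∑ D ∈ P.powerset.filter (fun D => D.card < 2 * r + 1), ∏ p ∈ D, (-(j / (p : ℝ))) := by
      rw [← sum_fiberwise_of_maps_to (s := P.powerset.filter (fun D => D.card < 2 * r + 1))
        (t := range (2 * r + 1)) (g := fun D => D.card) (fun D hD => mem_range.2 (mem_filter.1 hD).2)]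
      refine sum_congr rfl fun k hk => sum_congr ?_ fun _ _ => rfl
      ext D
      simp only [mem_powersetCard, mem_filter, mem_powerset]
      constructor
      · rintro ⟨h6, h7⟩
        exact ⟨⟨h6, by rw [h7]; exact mem_range.1 hk⟩, h7⟩
      · rintro ⟨⟨h6, _⟩, h7⟩
        exact ⟨h6, h7⟩
    have h6 : ∏ p ∈ P, (1 + -(j / (p : ℝ))) = ∑ D ∈ P.powerset, ∏ p ∈ D, (-(j / (p : ℝ))) :=
      prod_one_add P
    have h7 := sum_filter_add_sum_filter_not P.powerset (fun D => D.card < 2 * r + 1)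
      (fun D => ∏ p ∈ D, (-(j / (p : ℝ))))
    have h8 : ∏ p ∈ P, (1 + -(j / (p : ℝ))) ≤ Real.exp (-s) := by
      rw [hsx, ← sum_neg_distrib, Real.exp_sum]
      refine prod_le_prod (fun p hp => by linarith [hx1 p hp]) fun p hp => ?_
      have := Real.add_one_le_exp (-(j / (p : ℝ)))
      linarith
    have h9 : -(∑ D ∈ P.powerset.filter (fun D => ¬ D.card < 2 * r + 1), ∏ p ∈ D, (-(j / (p : ℝ)))) ≤
        Real.exp (-s) := by
      rw [← sum_neg_distrib]
      calc ∑ D ∈ P.powerset.filter (fun D => ¬ D.card < 2 * r + 1), -∏ p ∈ D, (-(j / (p : ℝ)))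
          ≤ ∑ D ∈ P.powerset.filter (fun D => ¬ D.card < 2 * r + 1),
            Real.exp (-(2 * r)) * ∏ p ∈ D, (Real.exp 1 * (j / (p : ℝ))) := by
            refine sum_le_sum fun D hD => ?_
            have h10 : ¬ D.card < 2 * r + 1 := (mem_filter.1 hD).2
            have h11 : D ⊆ P := mem_powerset.1 (mem_filter.1 hD).1
            have h12 : 0 ≤ ∏ p ∈ D, (j / (p : ℝ)) := prod_nonneg fun p hp => hx0 p (h11 hp)
            rw [prod_neg, prod_mul_distrib, prod_const, ← Real.exp_nat_mul, ← mul_assoc,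
              ← Real.exp_add]
            have h13 : (1 : ℝ) ≤ Real.exp (-(2 * r) + D.card * 1) := by
              apply Real.one_le_exp
              have : (2 * (r : ℝ)) ≤ D.card := by
                exact_mod_cast (by omega : 2 * r ≤ D.card)
              linarith
            calc -((-1) ^ D.card * ∏ p ∈ D, (j / (p : ℝ))) ≤ 1 * ∏ p ∈ D, (j / (p : ℝ)) := by
                  rcases neg_one_pow_eq_or ℝ D.card with h14 | h14 <;> rw [h14] <;> linarith
              _ ≤ _ := mul_le_mul_of_nonneg_right h13 h12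
        _ ≤ ∑ D ∈ P.powerset, Real.exp (-(2 * r)) * ∏ p ∈ D, (Real.exp 1 * (j / (p : ℝ))) := by
            refine sum_le_sum_of_subset_of_nonneg (filter_subset _ _) fun D hD _ => ?_
            have h11 : D ⊆ P := mem_powerset.1 hD
            have : 0 ≤ ∏ p ∈ D, (Real.exp 1 * (j / (p : ℝ))) :=
              prod_nonneg fun p hp => mul_nonneg (Real.exp_pos _).le (hx0 p (h11 hp))
            positivity
        _ = Real.exp (-(2 * r)) * ∏ p ∈ P, (1 + Real.exp 1 * (j / (p : ℝ))) := by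
            rw [← mul_sum, prod_one_add]
        _ ≤ Real.exp (-(2 * r)) * Real.exp (Real.exp 1 * s) := by
            refine mul_le_mul_of_nonneg_left ?_ (Real.exp_pos _).le
            rw [hsx, mul_sum, Real.exp_sum]
            refine prod_le_prod (fun p hp => ?_) fun p hp => ?_
            · have := mul_nonneg (Real.exp_pos 1).le (hx0 p hp)
              linarith
            · have := Real.add_one_le_exp (Real.exp 1 * (j / (p : ℝ)))
              linarith
        _ ≤ Real.exp (-s) := by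
            rw [← Real.exp_add, Real.exp_le_exp]
            have := Real.exp_one_lt_d9
            nlinarith
    rw [h5]
    linarith
  calc _ ≤ (N : ℝ) * ∑ k ∈ range (2 * r + 1), ∑ D ∈ P.powersetCard k, ∏ p ∈ D, (-(j / (p : ℝ))) +
        ∑ k ∈ range (2 * r + 1), (P.card.choose k : ℝ) * j ^ k := h4
    _ ≤ (N : ℝ) * (2 * Real.exp (-s)) + (1 + j * P.card) ^ (2 * r) := by gcongr
    _ = _ := by ring

/-- The sieve bound for prime tuples. -/
theorem brun_primes (N w z : ℕ) (S : Finset ℕ) (hS : ∀ h ∈ S, h ≤ w)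
    (P : Finset ℕ)
    (hP : ∀ p ∈ P, p.Prime ∧ w < p ∧ p ≤ z) (r : ℕ) (s : ℝ)
    (hs : s = (S.card : ℝ) * ∑ p ∈ P, (1 : ℝ) / p) (hr : 4 * s ≤ 2 * r) :
    (((range N).filter fun m => ∀ h ∈ S, (m + h).Prime).card : ℝ) ≤
      (z + 1) + 2 * N * Real.exp (-s) + (1 + (S.card : ℝ) * P.card) ^ (2 * r) := by
  classical
  have h1 : (range N).filter (fun m => ∀ h ∈ S, (m + h).Prime) ⊆
      range (z + 1) ∪ (range N).filter fun m => ∀ p ∈ P, ∀ h ∈ S, ¬ p ∣ m + h := by
    intro m hm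
    rw [mem_filter] at hm
    rw [mem_union, mem_filter, mem_range]
    by_cases hmz : m < z + 1
    · exact Or.inl hmz
    · refine Or.inr ⟨hm.1, fun p hp h hh hd => ?_⟩
      have h2 := (Nat.prime_dvd_prime_iff_eq (hP p hp).1 (hm.2 h hh)).1 hd
      have := (hP p hp).2.2
      omega
  have h2 := card_le_card h1
  have h3 := brun N w S hS P (fun p hp => ⟨(hP p hp).1, (hP p hp).2.1⟩) r s hs hr
  have h4 := h2.trans (card_union_le _ _)
  rw [card_range] at h4
  have h5 : (((range N).filter fun m => ∀ h ∈ S, (m + h).Prime).card : ℝ) ≤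
      (z + 1) + (((range N).filter fun m => ∀ p ∈ P, ∀ h ∈ S, ¬ p ∣ m + h).card : ℝ) := by
    exact_mod_cast h4
  linarith

end Pool.Agent.Lib.MP_e3f158_nt
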