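import Pool.Agent.Lib.MP_e3f158_nt.Iter

/-!
# Density of the even integers of type `(a, b)`
-/

namespace Pool.Agent.Lib.MP_e3f158_nt

open Finset Filter

theorem pic_tendsto (R : ℕ) : Tendsto (pic R) atTop atTop := by
  induction R with
  | zero => exact tendsto_id
  | succ R ih =>
    have h : pic (R + 1) = Nat.primeCounting ∘ pic R := by
      funext n; exact pic_succ R n
    rw [h]
    exact Nat.tendsto_primeCounting.comp ih

theorem primeCounting_ge : ∀ᶠ n : ℕ in atTop, (n : ℝ) / (2 * Real.log n) ≤ Nat.primeCounting n := by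
  have h1 : (fun x : ℝ => Real.log x) =o[atTop] (fun x : ℝ => x) := Real.isLittleO_log_id_atTop
  have h2 := (h1.bound (c := 1 / 20) (by norm_num))
  have h3 := tendsto_natCast_atTop_atTop.eventually h2
  filter_upwards [h3, eventually_ge_atTop 20] with n hn hn20
  have hnr : (20 : ℝ) ≤ n := by exact_mod_cast hn20
  have hlog : 0 < Real.log n := Real.log_pos (by linarith)
  rw [Real.norm_of_nonneg hlog.le, Real.norm_of_nonneg (by positivity)] at hn
  have h4 := Chebyshev.pi_ge n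
  have h5 : Real.log (n + 1) ≤ Real.log 2 + Real.log n := by
    rw [← Real.log_mul (by norm_num) (by positivity)]
    exact Real.log_le_log (by positivity) (by linarith)
  have h6 := Real.log_two_gt_d9
  have h7 := Real.log_two_lt_d9
  refine le_trans ?_ h4
  rw [div_le_div_iff₀ (by positivity) hlog]
  have h8 : (n : ℝ) / 2 ≤ n * Real.log 2 - Real.log (n + 1) := by nlinarith
  nlinarith

theorem pic_ge (R : ℕ) : ∀ᶠ n : ℕ in atTop, (n : ℝ) / (2 * Real.log n) ^ R ≤ pic R n := by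
  induction R with
  | zero =>
    filter_upwards with n
    rw [pow_zero, div_one, pic_zero]
  | succ R ih =>
    filter_upwards [ih, (pic_tendsto R).eventually primeCounting_ge,
      (pic_tendsto R).eventually_ge_atTop 3, eventually_ge_atTop 3] with n h1 h2 h3 h4
    rw [pic_succ]
    refine le_trans ?_ h2
    have h5 : (3 : ℝ) ≤ (pic R n : ℝ) := by exact_mod_cast h3
    have h6 : (3 : ℝ) ≤ (n : ℝ) := by exact_mod_cast h4
    have h7 : (pic R n : ℝ) ≤ n := by exact_mod_cast pic_le R n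
    have h8 : 0 < Real.log (pic R n) := Real.log_pos (by linarith)
    have h9 : Real.log (pic R n) ≤ Real.log n := Real.log_le_log (by linarith) h7
    calc (n : ℝ) / (2 * Real.log n) ^ (R + 1) = (n : ℝ) / (2 * Real.log n) ^ R / (2 * Real.log n) := by
          rw [pow_succ, div_div]
      _ ≤ (pic R n : ℝ) / (2 * Real.log n) := by
          refine div_le_div_of_nonneg_right h1 ?_
          linarith
      _ ≤ (pic R n : ℝ) / (2 * Real.log (pic R n)) := by
          refine div_le_div_of_nonneg_left (by positivity) (by positivity) ?_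
          linarith

/-- Block thresholds. -/
noncomputable def thr (L x : ℝ) (R k : ℕ) : ℕ := ⌈L ^ (R - k) * x ^ (8 * k)⌉₊

theorem thr_ge (L x : ℝ) (R k : ℕ) : L ^ (R - k) * x ^ (8 * k) ≤ thr L x R k := Nat.le_ceil _

theorem thr_le {L x : ℝ} (R k : ℕ) (hL : 1 ≤ L) (hx : 1 ≤ x) :
    (thr L x R k : ℝ) ≤ 2 * (L ^ (R - k) * x ^ (8 * k)) := by
  have h1 : 1 ≤ L ^ (R - k) * x ^ (8 * k) :=
    one_le_mul_of_one_le_of_one_le (one_le_pow₀ hL) (one_le_pow₀ hx)
  have h2 : (thr L x R k : ℝ) < L ^ (R - k) * x ^ (8 * k) + 1 :=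
    Nat.ceil_lt_add_one (by linarith)
  linarith

set_option maxHeartbeats 4000000 in
open Classical in
theorem main (a b : ℕ) : ∀ᶠ N : ℕ in atTop,
    (N : ℝ) / (Real.log (Real.log N)) ^ (8 * b + a + 10) ≤
      (((Icc 1 N).filter fun m => Even m ∧ HasRep a b m).card : ℝ) := by
  set R : ℕ := b + 1 with hR
  have hR1 : 1 ≤ R := by omega
  set C : ℝ := 32 * 2 ^ R * (2 * (R + 1)) ^ (a + 1) with hC
  have hC0 : 0 < C := by rw [hC]; positivity
  have hx : Tendsto (fun N : ℕ => Real.log (Real.log N)) atTop atTop :=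
    Real.tendsto_log_atTop.comp (Real.tendsto_log_atTop.comp tendsto_natCast_atTop_atTop)
  have hL : Tendsto (fun N : ℕ => Real.log N) atTop atTop :=
    Real.tendsto_log_atTop.comp tendsto_natCast_atTop_atTop
  -- conditions on x
  have hexp : ∀ (n : ℕ) (c : ℝ), ∀ᶠ x : ℝ in atTop, c * x ^ n ≤ Real.exp x := by
    intro n c
    filter_upwards [(Real.tendsto_exp_div_pow_atTop n).eventually_ge_atTop c,
      eventually_gt_atTop 0] with x h1 h2
    rwa [le_div_iff₀ (by positivity)] at h1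
  have c1 : ∀ᶠ N : ℕ in atTop, 2 ≤ Real.log (Real.log N) := hx.eventually_ge_atTop 2
  have c2 := hx.eventually (hexp (8 * R) 2)
  have c3 := hx.eventually (hexp 0 (24 * R * 2 ^ R))
  have c4 : ∀ᶠ N : ℕ in atTop, 2 * C ≤ Real.log (Real.log N) := hx.eventually_ge_atTop _
  have c5 := hx.eventually (hexp (a + 1) (2 * (2 * (R + 1)) ^ (a + 1)))
  have c6 : ∀ᶠ N : ℕ in atTop, 16 * 2 ^ R * (Real.log N) ^ (R + 1) ≤ N := by
    have h1 := (Real.isLittleO_pow_log_id_atTop (n := R + 1)).bound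
      (c := 1 / (16 * 2 ^ R)) (by positivity)
    filter_upwards [tendsto_natCast_atTop_atTop.eventually h1, eventually_ge_atTop 1] with N hN hN1
    have h2 : 0 ≤ Real.log N := Real.log_natCast_nonneg N
    simp only [id] at hN
    rw [Real.norm_of_nonneg (by positivity), Real.norm_of_nonneg (by positivity)] at hN
    calc 16 * 2 ^ R * (Real.log N) ^ (R + 1) ≤ 16 * 2 ^ R * (1 / (16 * 2 ^ R) * N) := by gcongr
      _ = N := by field_simp
  obtain ⟨n0, hn0⟩ := eventually_atTop.1 (pic_ge R)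
  obtain ⟨n1, hn1⟩ := eventually_atTop.1 (pic_ge (a + 1))
  have c7 : ∀ᶠ N : ℕ in atTop, 2 * n0 + 10 ≤ N := eventually_ge_atTop _
  have c8 : ∀ᶠ N : ℕ in atTop, (n1 : ℝ) ≤ Real.log N := hL.eventually_ge_atTop _
  have hA : 1 ≤ 2 * R + 3 := by omega
  filter_upwards [c1, c2, c3, c4, c5, c6, c7, c8, conc (2 * R + 3) hA] with N h1 h2 h3 h4 h5 h6 h7 h8 hconc
  set L : ℝ := Real.log N with hLdef
  set x : ℝ := Real.log L with hxdef
  have hL0 : 0 < L := by
    by_contra h
    push Not at h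
    have hN0 : (10 : ℝ) ≤ N := by exact_mod_cast (by omega : 10 ≤ N)
    have : 0 < L := Real.log_pos (by linarith)
    linarith
  have hLx : Real.exp x = L := Real.exp_log hL0
  rw [hLx] at h2 h3 h5
  have hL1 : 1 ≤ L := by
    rw [← hLx]
    exact Real.one_le_exp (by linarith)
  have hx1 : 1 ≤ x := by linarith
  have hx0 : 0 < x := by linarith
  have hNpos : (0 : ℝ) < N := by exact_mod_cast (by omega : 0 < N)
  set K : ℕ → ℕ := thr L x R with hK
  set H : ℕ := K 0 with hH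
  have hHge : L ^ R ≤ H := by
    have := thr_ge L x R 0
    simpa using this
  have hHle : (H : ℝ) ≤ 2 * L ^ R := by
    have := thr_le R 0 hL1 hx1
    simpa using this
  have hLR1 : 1 ≤ L ^ R := one_le_pow₀ hL1
  have hHpos : 0 < H := by
    have : (0 : ℝ) < H := by linarith
    exact_mod_cast this
  set β : ℕ := ⌊3 * (N : ℝ) / L ^ (2 * R + 3)⌋₊ with hβ
  have hβr : (β : ℝ) ≤ 3 * (N : ℝ) / L ^ (2 * R + 3) := Nat.floor_le (by positivity)
  -- powers
  have hxR : 2 * x ^ (8 * R) ≤ L := h2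
  have hcond : ∀ k < R, ((range N).filter fun m => K (k + 1) + 1 ≤ cnt m (K k)).card ≤ β := by
    intro k hk
    rw [hβ]
    apply Nat.le_floor
    refine hconc (K k) (K (k + 1) + 1) ?_ ?_ ?_
    · calc (K k : ℝ) ≤ 2 * (L ^ (R - k) * x ^ (8 * k)) := thr_le R k hL1 hx1
        _ ≤ 2 * (L ^ R * x ^ (8 * R)) := by
            have e1 : L ^ (R - k) ≤ L ^ R := pow_le_pow_right₀ hL1 (by omega)
            have e2 : x ^ (8 * k) ≤ x ^ (8 * R) := pow_le_pow_right₀ hx1 (by omega)
            gcongr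
        _ = L ^ R * (2 * x ^ (8 * R)) := by ring
        _ ≤ L ^ R * L := by gcongr
        _ = L ^ (R + 1) := by ring
        _ ≤ L ^ (2 * R + 3) := pow_le_pow_right₀ hL1 (by omega)
    · have e1 : (K k : ℝ) ≤ 2 * (L ^ (R - k) * x ^ (8 * k)) := thr_le R k hL1 hx1
      have e2 : L ^ (R - (k + 1)) * x ^ (8 * (k + 1)) ≤ (K (k + 1) : ℝ) := thr_ge L x R (k + 1)
      have e3 : L ^ (R - k) = L * L ^ (R - (k + 1)) := by
        rw [← pow_succ']
        congr 1
        omega
      calc (K k : ℝ) * x ^ 7 ≤ 2 * (L ^ (R - k) * x ^ (8 * k)) * x ^ 7 := by gcongr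
        _ = L ^ (R - k) * x ^ (8 * k + 7) * 2 := by ring
        _ ≤ L ^ (R - k) * x ^ (8 * k + 7) * x := by gcongr
        _ = (L ^ (R - (k + 1)) * x ^ (8 * (k + 1))) * L := by rw [e3]; ring
        _ ≤ (K (k + 1) : ℝ) * L := by gcongr
        _ ≤ ((K (k + 1) + 1 : ℕ) : ℝ) * L := by
            push_cast
            nlinarith
    · have e2 : L ^ (R - (k + 1)) * x ^ (8 * (k + 1)) ≤ (K (k + 1) : ℝ) := thr_ge L x R (k + 1)
      have e3 : (1 : ℝ) ≤ L ^ (R - (k + 1)) := one_le_pow₀ hL1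
      have e4 : x ^ 2 ≤ x ^ (8 * (k + 1)) := pow_le_pow_right₀ hx1 (by omega)
      push_cast
      nlinarith [sq_nonneg x]
  -- blocks
  have hN4 : 8 * L ^ R ≤ N := by
    have e1 : 8 * L ^ R ≤ 16 * 2 ^ R * L ^ (R + 1) := by
      have e2 : (1 : ℝ) ≤ 2 ^ R := one_le_pow₀ (by norm_num)
      have e3 : L ^ R ≤ L ^ (R + 1) := pow_le_pow_right₀ hL1 (by omega)
      nlinarith
    linarith
  have hHN : 4 * H ≤ N := by
    have : (4 : ℝ) * H ≤ N := by linarith
    exact_mod_cast this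
  set n : ℕ := N / H - 1 with hn
  have hNH : 4 ≤ N / H := (Nat.le_div_iff_mul_le hHpos).2 hHN
  have hn1' : n + 1 = N / H := by omega
  have hnH : (n + 1) * H ≤ N := by rw [hn1']; exact Nat.div_mul_le_self N H
  have hnH2 : N < (n + 2) * H := by
    have := Nat.lt_div_mul_add (a := N) hHpos
    rw [← hn1'] at this
    calc N < (n + 1) * H + H := this
      _ = (n + 2) * H := by ring
  have hnHle : n * H ≤ N := le_trans (Nat.mul_le_mul_right _ (by omega)) hnH
  have hnHge : (N : ℝ) / 2 ≤ ((n * H : ℕ) : ℝ) := by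
    have e1 : (N : ℝ) < ((n * H : ℕ) : ℝ) + 2 * H := by
      have : N < n * H + 2 * H := by
        calc N < (n + 2) * H := hnH2
          _ = n * H + 2 * H := by ring
      exact_mod_cast this
    have e2 : (4 : ℝ) * H ≤ N := by exact_mod_cast hHN
    linarith
  have hbad := bad_blocks N n H hnHle K (fun _ => β) (le_refl _) R hcond
  rw [sum_const, card_range, smul_eq_mul] at hbad
  have hmass := mass n H (K R) (R * β) R hbad
  set F : ℕ := ((range n).filter fun i => pic R (i * H) < pic R ((i + 1) * H)).card with hF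
  have hsum := sum_lemma a b N n H hnH
  rw [← hR, ← hF] at hsum
  set M : ℕ := ((Icc 1 N).filter fun m => Even m ∧ HasRep a b m).card with hM
  -- lower bound for pic
  have hn0' : n0 ≤ n * H := by
    have e1 : (n0 : ℝ) ≤ ((n * H : ℕ) : ℝ) := by
      have e2 : (2 : ℝ) * n0 + 10 ≤ N := by exact_mod_cast h7
      linarith
    exact_mod_cast e1
  have hpic := hn0 (n * H) hn0'
  have hpic2 : (N : ℝ) / 2 / (2 * L) ^ R ≤ pic R (n * H) := by
    refine le_trans ?_ hpic
    have e1 : (5 : ℝ) ≤ ((n * H : ℕ) : ℝ) := by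
      have e2 : (10 : ℝ) ≤ N := by exact_mod_cast (by omega : 10 ≤ N)
      linarith
    have e3 : 0 < Real.log ((n * H : ℕ) : ℝ) := Real.log_pos (by linarith)
    have e4 : Real.log ((n * H : ℕ) : ℝ) ≤ L :=
      Real.log_le_log (by linarith) (by exact_mod_cast hnHle)
    exact div_le_div₀ (by positivity) hnHge (by positivity) (by gcongr)
  have hmassr : (pic R (n * H) : ℝ) ≤ F * K R + R * β * H := by exact_mod_cast hmass
  have hbadr : (R : ℝ) * β * H ≤ (N : ℝ) / 4 / (2 * L) ^ R := by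
    have e1 : (R : ℝ) * β * H ≤ R * (3 * (N : ℝ) / L ^ (2 * R + 3)) * (2 * L ^ R) := by gcongr
    refine e1.trans ?_
    have e2 : R * (3 * (N : ℝ) / L ^ (2 * R + 3)) * (2 * L ^ R) = N / 4 * (24 * R) / L ^ (R + 3) := by
      have : L ^ (2 * R + 3) = L ^ R * L ^ (R + 3) := by rw [← pow_add]; congr 1; omega
      rw [this]
      field_simp
      ring
    rw [e2, mul_pow, div_le_div_iff₀ (by positivity) (by positivity)]
    have e3 : (24 : ℝ) * R * 2 ^ R ≤ L := by simpa using h3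
    have e4 : L ≤ L ^ 3 := by
      calc L = L ^ 1 := (pow_one L).symm
        _ ≤ L ^ 3 := pow_le_pow_right₀ hL1 (by norm_num)
    calc N / 4 * (24 * R) * (2 ^ R * L ^ R) = N / 4 * L ^ R * (24 * R * 2 ^ R) := by ring
      _ ≤ N / 4 * L ^ R * L ^ 3 := by
          refine mul_le_mul_of_nonneg_left (e3.trans e4) (by positivity)
      _ = _ := by ring
  have hFK : (N : ℝ) / 4 / (2 * L) ^ R ≤ F * K R := by
    have e1 : (N : ℝ) / 2 / (2 * L) ^ R = N / 4 / (2 * L) ^ R + N / 4 / (2 * L) ^ R := by ring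
    linarith
  have hKR : (K R : ℝ) ≤ 2 * x ^ (8 * R) := by
    have := thr_le (L := L) (x := x) R R hL1 hx1
    simpa using this
  have hF1 : (N : ℝ) / (8 * (2 * L) ^ R * x ^ (8 * R)) ≤ F := by
    rw [div_le_iff₀ (by positivity)]
    have e1 : (N : ℝ) / 4 / (2 * L) ^ R ≤ F * (2 * x ^ (8 * R)) := hFK.trans (by gcongr)
    rw [div_div, div_le_iff₀ (by positivity)] at e1
    linarith
  have hF2 : (N : ℝ) / (16 * (2 * L) ^ R * x ^ (8 * R)) ≤ ((F - 1 : ℕ) : ℝ) := by
    have e1 : (N : ℝ) / (8 * (2 * L) ^ R * x ^ (8 * R)) =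
        2 * ((N : ℝ) / (16 * (2 * L) ^ R * x ^ (8 * R))) := by
      field_simp
      ring
    have e2 : 1 ≤ (N : ℝ) / (16 * (2 * L) ^ R * x ^ (8 * R)) := by
      rw [le_div_iff₀ (by positivity), one_mul]
      calc 16 * (2 * L) ^ R * x ^ (8 * R) = 16 * 2 ^ R * L ^ R * x ^ (8 * R) := by
            rw [mul_pow]; ring
        _ ≤ 16 * 2 ^ R * L ^ R * L := by
            gcongr
            have : 0 ≤ x ^ (8 * R) := by positivity
            linarith
        _ = 16 * 2 ^ R * L ^ (R + 1) := by ring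
        _ ≤ N := h6
    have e3 : (F : ℝ) ≤ ((F - 1 : ℕ) : ℝ) + 1 := by
      have : F ≤ F - 1 + 1 := by omega
      exact_mod_cast this
    linarith
  -- small iterated primes
  have hn1H : n1 ≤ H := by
    have e1 : (n1 : ℝ) ≤ H := by
      calc (n1 : ℝ) ≤ L := h8
        _ = L ^ 1 := (pow_one L).symm
        _ ≤ L ^ R := pow_le_pow_right₀ hL1 hR1
        _ ≤ H := hHge
    exact_mod_cast e1
  have hpicH := hn1 H hn1H
  set Q : ℝ := L ^ R / (2 * ((R + 1) * x)) ^ (a + 1) with hQ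
  have hlogL2 : 2 ≤ L := by
    have : (1 : ℝ) ≤ x ^ (8 * R) := one_le_pow₀ hx1
    linarith
  have hlogH : Real.log H ≤ (R + 1) * x := by
    have e1 : (H : ℝ) ≤ L ^ (R + 1) := by
      calc (H : ℝ) ≤ 2 * L ^ R := hHle
        _ ≤ L * L ^ R := by gcongr
        _ = L ^ (R + 1) := by ring
    have e2 := Real.log_le_log (by linarith) e1
    rw [Real.log_pow] at e2
    push_cast at e2
    exact e2
  have hH2 : (2 : ℝ) ≤ H := by
    calc (2 : ℝ) ≤ L := hlogL2
      _ = L ^ 1 := (pow_one L).symm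
      _ ≤ L ^ R := pow_le_pow_right₀ hL1 hR1
      _ ≤ H := hHge
  have hlogHpos : 0 < Real.log H := Real.log_pos (by linarith)
  have hQpic : Q ≤ pic (a + 1) H := by
    refine le_trans ?_ hpicH
    exact div_le_div₀ (by positivity) hHge (by positivity) (by gcongr)
  have hQ2 : 2 ≤ Q := by
    rw [hQ, le_div_iff₀ (by positivity)]
    calc 2 * (2 * ((R + 1) * x)) ^ (a + 1) = 2 * (2 * (R + 1)) ^ (a + 1) * x ^ (a + 1) := by
          rw [← mul_assoc 2, mul_pow (2 * ((R : ℝ) + 1)) x]; ring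
      _ ≤ L := h5
      _ = L ^ 1 := (pow_one L).symm
      _ ≤ L ^ R := pow_le_pow_right₀ hL1 hR1
  have hQ3 : Q / 2 ≤ ((pic (a + 1) H - 1 : ℕ) : ℝ) := by
    have e3 : (pic (a + 1) H : ℝ) ≤ ((pic (a + 1) H - 1 : ℕ) : ℝ) + 1 := by
      have : pic (a + 1) H ≤ pic (a + 1) H - 1 + 1 := by omega
      exact_mod_cast this
    linarith
  have hfin : (N : ℝ) / (16 * (2 * L) ^ R * x ^ (8 * R)) * (Q / 2) ≤ 2 * M := by
    calc _ ≤ ((F - 1 : ℕ) : ℝ) * ((pic (a + 1) H - 1 : ℕ) : ℝ) := by gcongr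
      _ ≤ 2 * M := by exact_mod_cast hsum
  have e1 : (N : ℝ) / (16 * (2 * L) ^ R * x ^ (8 * R)) * (Q / 2) =
      N / (C * x ^ (8 * R + a + 1)) := by
    rw [hQ, hC]
    have e2 : (2 * (((R : ℝ) + 1) * x)) ^ (a + 1) = (2 * (R + 1)) ^ (a + 1) * x ^ (a + 1) := by
      rw [← mul_assoc 2, mul_pow (2 * ((R : ℝ) + 1)) x]
    have e3 : x ^ (8 * R + a + 1) = x ^ (8 * R) * x ^ (a + 1) := by rw [← pow_add]; congr 1
    rw [e2, e3, mul_pow 2 L R]
    have hLR0 : L ^ R ≠ 0 := by positivity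
    field_simp
    ring
  rw [e1] at hfin
  have e2 : 8 * b + a + 10 = 8 * R + a + 1 + 1 := by omega
  rw [e2, pow_succ x]
  have e3 : (N : ℝ) / (x ^ (8 * R + a + 1) * x) ≤ N / (2 * C * x ^ (8 * R + a + 1)) := by
    refine div_le_div_of_nonneg_left (by positivity) (by positivity) ?_
    calc 2 * C * x ^ (8 * R + a + 1) = x ^ (8 * R + a + 1) * (2 * C) := by ring
      _ ≤ _ := by gcongr
  have e4 : (N : ℝ) / (2 * C * x ^ (8 * R + a + 1)) = N / (C * x ^ (8 * R + a + 1)) / 2 := by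
    field_simp
  rw [e4] at e3
  linarith

end Pool.Agent.Lib.MP_e3f158_nt
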