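import Pool.Agent.Lib.MP_e3f158_nt.Brun
import Pool.Agent.Lib.MP_e3f158_nt.Mertens

/-!
# Few short intervals contain many primes
-/

namespace Pool.Agent.Lib.MP_e3f158_nt

open Finset Filter

/-- Number of primes in `(m, m + K]`. -/
def cnt (m K : ℕ) : ℕ := ((Ioc 0 K).filter fun h => (m + h).Prime).card

/-- Double counting. -/
theorem sum_choose_cnt (N K j : ℕ) :
    ∑ m ∈ range N, (cnt m K).choose j =
      ∑ S ∈ (Ioc 0 K).powersetCard j, ((range N).filter fun m => ∀ h ∈ S, (m + h).Prime).card := by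
  classical
  have h3 : ∀ m ∈ range N, (cnt m K).choose j =
      ∑ S ∈ (Ioc 0 K).powersetCard j, if (∀ h ∈ S, (m + h).Prime) then 1 else 0 := by
    intro m _
    rw [cnt, ← card_powersetCard, ← Finset.sum_filter, sum_const, smul_eq_mul, mul_one]
    congr 1
    ext S
    simp only [mem_powersetCard, mem_filter]
    constructor
    · rintro ⟨h4, h5⟩
      exact ⟨⟨fun p hp => (mem_filter.1 (h4 hp)).1, h5⟩, fun p hp => (mem_filter.1 (h4 hp)).2⟩
    · rintro ⟨⟨h4, h5⟩, h6⟩
      exact ⟨fun p hp => mem_filter.2 ⟨h4 hp, h6 p hp⟩, h5⟩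
  rw [sum_congr rfl h3, sum_comm]
  refine sum_congr rfl fun D _ => ?_
  rw [card_filter]

/-- Markov's inequality for the binomial moment. -/
theorem bad_le (N K T j : ℕ) (Mx : ℝ) (hMx0 : 0 ≤ Mx) (hT : 2 * j ≤ T) (hT0 : 0 < T)
    (hMx : ∀ S ∈ (Ioc 0 K).powersetCard j,
      (((range N).filter fun m => ∀ h ∈ S, (m + h).Prime).card : ℝ) ≤ Mx) :
    (((range N).filter fun m => T ≤ cnt m K).card : ℝ) ≤ Mx * (2 * K / T) ^ j := by
  classical
  have hTr : (0 : ℝ) < T := by exact_mod_cast hT0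
  have h1 : (((range N).filter fun m => T ≤ cnt m K).card : ℝ) * (T.choose j : ℝ) ≤
      (K.choose j : ℝ) * Mx := by
    calc (((range N).filter fun m => T ≤ cnt m K).card : ℝ) * (T.choose j : ℝ)
        = ∑ m ∈ (range N).filter (fun m => T ≤ cnt m K), (T.choose j : ℝ) := by
          rw [sum_const, nsmul_eq_mul]
      _ ≤ ∑ m ∈ (range N).filter (fun m => T ≤ cnt m K), ((cnt m K).choose j : ℝ) := by
          refine sum_le_sum fun m hm => ?_
          exact_mod_cast Nat.choose_le_choose j (mem_filter.1 hm).2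
      _ ≤ ∑ m ∈ range N, ((cnt m K).choose j : ℝ) :=
          sum_le_sum_of_subset_of_nonneg (filter_subset _ _) fun _ _ _ => by positivity
      _ = ∑ S ∈ (Ioc 0 K).powersetCard j,
            (((range N).filter fun m => ∀ h ∈ S, (m + h).Prime).card : ℝ) := by
          exact_mod_cast sum_choose_cnt N K j
      _ ≤ ∑ S ∈ (Ioc 0 K).powersetCard j, Mx := sum_le_sum hMx
      _ = (K.choose j : ℝ) * Mx := by
          rw [sum_const, card_powersetCard, Nat.card_Ioc, nsmul_eq_mul, Nat.sub_zero]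
  have hf : (0 : ℝ) < (j.factorial : ℝ) := by exact_mod_cast j.factorial_pos
  have h2 : (((T + 1 - j : ℕ) : ℝ)) ^ j / (j.factorial : ℝ) ≤ (T.choose j : ℝ) :=
    Nat.pow_le_choose j T
  have h3 : (K.choose j : ℝ) ≤ (K : ℝ) ^ j / (j.factorial : ℝ) := Nat.choose_le_pow_div j K
  have h4 : ((T : ℝ) / 2) ^ j ≤ (((T + 1 - j : ℕ) : ℝ)) ^ j := by
    refine pow_le_pow_left₀ (by positivity) ?_ j
    have h5 : (2 : ℝ) * j ≤ T := by exact_mod_cast hT
    rw [Nat.cast_sub (by omega)]
    push_cast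
    linarith
  have h5 : (((range N).filter fun m => T ≤ cnt m K).card : ℝ) * ((T : ℝ) / 2) ^ j ≤
      (K : ℝ) ^ j * Mx := by
    have h6 : (((range N).filter fun m => T ≤ cnt m K).card : ℝ) *
        (((T : ℝ) / 2) ^ j / (j.factorial : ℝ)) ≤ (K : ℝ) ^ j / (j.factorial : ℝ) * Mx := by
      calc _ ≤ (((range N).filter fun m => T ≤ cnt m K).card : ℝ) * (T.choose j : ℝ) := by
            refine mul_le_mul_of_nonneg_left (le_trans ?_ h2) (by positivity)
            gcongr
        _ ≤ (K.choose j : ℝ) * Mx := h1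
        _ ≤ _ := mul_le_mul_of_nonneg_right h3 hMx0
    rw [← mul_div_assoc, div_mul_eq_mul_div, div_le_div_iff_of_pos_right hf] at h6
    exact h6
  have h7 : (0 : ℝ) < ((T : ℝ) / 2) ^ j := by positivity
  rw [← le_div_iff₀ h7] at h5
  refine h5.trans (le_of_eq ?_)
  rw [mul_comm, mul_div_assoc, ← div_pow]
  congr 2
  field_simp

/-- The set of large primes used for sifting. -/
def sift (w z : ℕ) : Finset ℕ := (z + 1).primesBelow \ (w + 1).primesBelow

theorem mem_sift {w z p : ℕ} (hp : p ∈ sift w z) : p.Prime ∧ w < p ∧ p ≤ z := by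
  rw [sift, Finset.mem_sdiff, Nat.mem_primesBelow, Nat.mem_primesBelow] at hp
  refine ⟨hp.1.2, ?_, by omega⟩
  by_contra h
  exact hp.2 ⟨by omega, hp.1.2⟩

theorem card_sift (w z : ℕ) : (sift w z).card ≤ z := by
  have h : sift w z ⊆ Icc 1 z := fun p hp => by
    rw [mem_Icc]
    exact ⟨(mem_sift hp).1.pos, (mem_sift hp).2.2⟩
  simpa using card_le_card h

theorem sift_sum_ge (w z : ℕ) :
    ∑ p ∈ (z + 1).primesBelow, (1 : ℝ) / p - ∑ p ∈ (w + 1).primesBelow, (1 : ℝ) / p ≤
      ∑ p ∈ sift w z, (1 : ℝ) / p := by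
  classical
  rw [sub_le_iff_le_add]
  have h1 : (z + 1).primesBelow ⊆ sift w z ∪ (w + 1).primesBelow := by
    intro p hp
    rw [mem_union, sift, Finset.mem_sdiff]
    by_cases h : p ∈ (w + 1).primesBelow
    · exact Or.inr h
    · exact Or.inl ⟨hp, h⟩
  have h2 : Disjoint (sift w z) (w + 1).primesBelow := by
    rw [sift]; exact sdiff_disjoint
  calc ∑ p ∈ (z + 1).primesBelow, (1 : ℝ) / p
      ≤ ∑ p ∈ sift w z ∪ (w + 1).primesBelow, (1 : ℝ) / p :=
        sum_le_sum_of_subset_of_nonneg h1 fun _ _ _ => by positivity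
    _ = _ := sum_union h2

theorem sift_sum_le (w z : ℕ) :
    ∑ p ∈ sift w z, (1 : ℝ) / p ≤ ∑ p ∈ (z + 1).primesBelow, (1 : ℝ) / p :=
  sum_le_sum_of_subset_of_nonneg sdiff_subset fun _ _ _ => by positivity

set_option maxHeartbeats 4000000 in
/-- Few short intervals contain many primes, in terms of `x = log log N`. -/
theorem conc_core (A : ℕ) (hA : 1 ≤ A) : ∀ᶠ x : ℝ in atTop, ∀ N : ℕ,
    (N : ℝ) = Real.exp (Real.exp x) → ∀ K T : ℕ, (K : ℝ) ≤ Real.exp (A * x) →
    (K : ℝ) * x ^ 7 ≤ T * Real.exp x → x ^ 2 ≤ T →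
    (((range N).filter fun m => T ≤ cnt m K).card : ℝ) ≤ 3 * N * Real.exp (-(A * x)) := by
  have hAr : (1 : ℝ) ≤ A := by exact_mod_cast hA
  set D : ℝ := 168 * A with hD
  have hD0 : 0 < D := by rw [hD]; positivity
  set c : ℝ := Real.log D + 9 + 4 * Real.log (2 * A) with hc
  have e1 : ∀ᶠ x : ℝ in atTop, 8 ≤ x := eventually_ge_atTop 8
  have e2 : ∀ᶠ x : ℝ in atTop, (A * x + 3) ≤ Real.exp x / (D * x ^ 2) := by
    have h1 := Real.tendsto_exp_div_pow_atTop 3
    filter_upwards [h1.eventually_ge_atTop (D * (A + 3)), eventually_ge_atTop 1] with x hx hx1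
    have hx0 : 0 < x := by linarith
    rw [le_div_iff₀ (by positivity)]
    rw [le_div_iff₀ (by positivity)] at hx
    have h2 : (A * x + 3) * (D * x ^ 2) ≤ D * (A + 3) * x ^ 3 := by
      have h3 : A * x + 3 ≤ (A + 3) * x := by nlinarith
      calc (A * x + 3) * (D * x ^ 2) ≤ ((A + 3) * x) * (D * x ^ 2) := by gcongr
        _ = _ := by ring
    linarith
  have e3 : ∀ᶠ x : ℝ in atTop, A * x ^ 2 + x + 1 ≤ Real.exp x / 2 := by
    have h1 := Real.tendsto_exp_div_pow_atTop 2
    filter_upwards [h1.eventually_ge_atTop (2 * (A + 2)), eventually_ge_atTop 1] with x hx hx1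
    rw [le_div_iff₀ (by positivity)] at hx
    nlinarith
  have e4 : ∀ᶠ x : ℝ in atTop, c + Real.log 2 + 1 ≤ Real.log x :=
    Real.tendsto_log_atTop.eventually_ge_atTop _
  have e5 : ∀ᶠ x : ℝ in atTop, 2 * (A * x + 1) ≤ x ^ 2 := by
    filter_upwards [eventually_ge_atTop (2 * (A : ℝ) + 2), eventually_ge_atTop 1] with x hx hx1
    nlinarith
  filter_upwards [e1, e2, e3, e4, e5] with x hx8 hu hx2 hlogx hxj N hN K T hK hKT hT
  have hx0 : 0 < x := by linarith
  have hlog2 : Real.log 2 ≤ 1 := by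
    have := Real.log_two_lt_d9
    linarith
  have hlog2' : 0 < Real.log 2 := Real.log_pos (by norm_num)
  set u : ℝ := Real.exp x / (D * x ^ 2) with hudef
  have hu0 : 0 < u := by positivity
  set j : ℕ := ⌈(A : ℝ) * x⌉₊ with hj
  have hj1 : (A : ℝ) * x ≤ j := Nat.le_ceil _
  have hj2 : (j : ℝ) < A * x + 1 := Nat.ceil_lt_add_one (by positivity)
  set w : ℕ := ⌈Real.exp (A * x)⌉₊ with hw
  have hw1 : Real.exp (A * x) ≤ w := Nat.le_ceil _
  have hw2 : (w : ℝ) < Real.exp (A * x) + 1 := Nat.ceil_lt_add_one (by positivity)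
  set z : ℕ := ⌊Real.exp u⌋₊ with hz
  have hz1 : (z : ℝ) ≤ Real.exp u := Nat.floor_le (by positivity)
  have hz2 : Real.exp u < z + 1 := Nat.lt_floor_add_one _
  set σ : ℝ := ∑ p ∈ sift w z, (1 : ℝ) / p with hσ
  have hAx : 8 ≤ A * x := by nlinarith
  -- upper bound for σ
  have hexpu : 1 ≤ Real.exp u := Real.one_le_exp hu0.le
  have hux : u ≤ Real.exp x / 4 := by
    rw [hudef]
    have h1 : (4 : ℝ) ≤ D * x ^ 2 := by
      rw [hD]
      nlinarith
    exact div_le_div_of_nonneg_left (Real.exp_pos x).le (by norm_num) h1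
  have hexpx : x + 1 ≤ Real.exp x := Real.add_one_le_exp x
  have hz3 : (z : ℝ) + 1 ≤ Real.exp (Real.exp x / 2) := by
    calc (z : ℝ) + 1 ≤ 2 * Real.exp u := by linarith
      _ = Real.exp (Real.log 2 + u) := by
        rw [Real.exp_add, Real.exp_log (by norm_num)]
      _ ≤ Real.exp (Real.exp x / 2) := by
        rw [Real.exp_le_exp]
        linarith
  have hz4 : (4 : ℝ) ≤ z + 1 := by
    have := Real.add_one_le_exp u
    nlinarith
  have hzN : 3 ≤ z + 1 := by
    have : (3 : ℝ) ≤ ((z + 1 : ℕ) : ℝ) := by push_cast; linarith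
    exact_mod_cast this
  have hσ1 : σ ≤ 5 * x := by
    have h1 := sift_sum_le w z
    have h2 := sum_inv_le (z + 1) hzN
    have h3 : Real.log (Real.log ((z + 1 : ℕ) : ℝ)) ≤ x := by
      have h4 : Real.log ((z + 1 : ℕ) : ℝ) ≤ Real.exp x := by
        rw [Real.log_le_iff_le_exp (by positivity)]
        push_cast
        refine hz3.trans ?_
        rw [Real.exp_le_exp]
        linarith
      have h5 : 0 < Real.log ((z + 1 : ℕ) : ℝ) := by
        apply Real.log_pos
        push_cast
        linarith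
      rwa [Real.log_le_iff_le_exp h5]
    linarith
  have hσ0 : 0 ≤ σ := sum_nonneg fun _ _ => by positivity
  -- lower bound for σ
  have hσ2 : x - 6 * Real.log x - c ≤ σ := by
    have h1 := sift_sum_ge w z
    have h2 := sum_inv_ge (z + 1) (by omega)
    have hwN : 3 ≤ w + 1 := by
      have h3 : (3 : ℝ) ≤ ((w + 1 : ℕ) : ℝ) := by
        push_cast
        have := Real.add_one_le_exp (A * x)
        linarith
      exact_mod_cast h3
    have h3 := sum_inv_le (w + 1) hwN
    have h4 : Real.log (Real.log ((w + 1 : ℕ) : ℝ)) ≤ Real.log (2 * A) + Real.log x := by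
      rw [← Real.log_mul (by positivity) hx0.ne']
      have h5 : 0 < Real.log ((w + 1 : ℕ) : ℝ) := by
        apply Real.log_pos
        have : (3 : ℝ) ≤ ((w + 1 : ℕ) : ℝ) := by exact_mod_cast hwN
        linarith
      refine Real.log_le_log h5 ?_
      rw [Real.log_le_iff_le_exp (by positivity)]
      push_cast
      have h6 : Real.exp (2 * A * x) = Real.exp (A * x) * Real.exp (A * x) := by
        rw [← Real.exp_add]; congr 1; ring
      have h7 : A * x + 1 ≤ Real.exp (A * x) := Real.add_one_le_exp _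
      rw [h6]
      have h8 : (9 : ℝ) * Real.exp (A * x) ≤ Real.exp (A * x) * Real.exp (A * x) :=
        mul_le_mul_of_nonneg_right (by linarith) (Real.exp_pos _).le
      linarith
    have h5 : x - Real.log D - 2 * Real.log x ≤ Real.log (Real.log ((z + 1 : ℕ) : ℝ)) := by
      have h6 : x - Real.log D - 2 * Real.log x = Real.log u := by
        rw [hudef, Real.log_div (Real.exp_pos x).ne' (by positivity), Real.log_exp,
          Real.log_mul hD0.ne' (by positivity), Real.log_pow]
        push_cast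
        ring
      rw [h6]
      refine Real.log_le_log hu0 ?_
      rw [Real.le_log_iff_exp_le (by positivity)]
      push_cast
      exact hz2.le
    rw [hc]
    linarith
  set r : ℕ := ⌈10 * x * j⌉₊ with hr
  have hr1 : 10 * x * j ≤ r := Nat.le_ceil _
  have hr2 : (r : ℝ) < 10 * x * j + 1 := Nat.ceil_lt_add_one (by positivity)
  have hr3 : 4 * ((j : ℝ) * σ) ≤ 2 * r := by
    have : (j : ℝ) * σ ≤ j * (5 * x) := by gcongr
    linarith
  have hr4 : (r : ℝ) ≤ 21 * A * x ^ 2 := by
    have h1 : 10 * x * j ≤ 10 * x * (A * x + 1) := by gcongr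
    nlinarith
  set lo : ℝ := x - 6 * Real.log x - c with hlo
  have hlogx0 : 0 ≤ Real.log x := Real.log_nonneg (by linarith)
  have hc0 : 0 ≤ c := by
    have h1 : 0 ≤ Real.log D := Real.log_nonneg (by rw [hD]; linarith)
    have h2 : 0 ≤ Real.log (2 * A) := Real.log_nonneg (by linarith)
    rw [hc]; linarith
  have hN0 : (0 : ℝ) ≤ N := by positivity
  -- bound for each tuple
  have hMx : ∀ S ∈ (Ioc 0 K).powersetCard j,
      (((range N).filter fun m => ∀ h ∈ S, (m + h).Prime).card : ℝ) ≤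
        3 * N * Real.exp (-(j * lo)) := by
    intro S hS
    rw [mem_powersetCard] at hS
    have hS1 : ∀ h ∈ S, h ≤ w := by
      intro h hh
      have h1 : h ≤ K := (mem_Ioc.1 (hS.1 hh)).2
      have h2 : (K : ℝ) ≤ w := hK.trans hw1
      have h3 : K ≤ w := by exact_mod_cast h2
      exact h1.trans h3
    have h1 := brun_primes N w z S hS1 (sift w z) (fun p hp => mem_sift hp) r ((j : ℝ) * σ)
      (by rw [hS.2]) hr3
    rw [hS.2] at h1
    have h2 : (1 + (j : ℝ) * ((sift w z).card : ℝ)) ^ (2 * r) ≤ Real.exp (Real.exp x / 2) := by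
      have h3 : 1 + (j : ℝ) * ((sift w z).card : ℝ) ≤ Real.exp (2 * u) := by
        have h4 : ((sift w z).card : ℝ) ≤ Real.exp u := by
          refine le_trans ?_ hz1
          exact_mod_cast card_sift w z
        have h5 : 1 + (j : ℝ) ≤ Real.exp u := by
          have := Real.add_one_le_exp u
          linarith
        calc 1 + (j : ℝ) * ((sift w z).card : ℝ) ≤ 1 + (j : ℝ) * Real.exp u := by gcongr
          _ ≤ (1 + (j : ℝ)) * Real.exp u := by linarith
          _ ≤ Real.exp u * Real.exp u := by gcongr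
          _ = Real.exp (2 * u) := by rw [← Real.exp_add]; congr 1; ring
      calc (1 + (j : ℝ) * ((sift w z).card : ℝ)) ^ (2 * r) ≤ (Real.exp (2 * u)) ^ (2 * r) := by
            gcongr
        _ = Real.exp (4 * r * u) := by
            rw [← Real.exp_nat_mul]; congr 1; push_cast; ring
        _ ≤ Real.exp (Real.exp x / 2) := by
            rw [Real.exp_le_exp]
            have h6 : 4 * (r : ℝ) * u ≤ 4 * (21 * A * x ^ 2) * u := by gcongr
            refine h6.trans (le_of_eq ?_)
            rw [hudef, hD]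
            field_simp
            ring
    have h3 : 2 * Real.exp (Real.exp x / 2) ≤ N * Real.exp (-(j * x)) := by
      rw [hN, ← Real.exp_add]
      calc 2 * Real.exp (Real.exp x / 2) = Real.exp (Real.log 2 + Real.exp x / 2) := by
            rw [Real.exp_add, Real.exp_log (by norm_num)]
        _ ≤ _ := by
            rw [Real.exp_le_exp]
            have h4 : (j : ℝ) * x ≤ (A * x + 1) * x := by gcongr
            nlinarith
    have h4 : Real.exp (-(j * x)) ≤ Real.exp (-(j * lo)) := by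
      rw [Real.exp_le_exp, neg_le_neg_iff]
      refine mul_le_mul_of_nonneg_left ?_ (by positivity)
      rw [hlo]; linarith
    have h5 : Real.exp (-((j : ℝ) * σ)) ≤ Real.exp (-(j * lo)) := by
      rw [Real.exp_le_exp, neg_le_neg_iff]
      exact mul_le_mul_of_nonneg_left hσ2 (by positivity)
    calc _ ≤ _ := h1
      _ ≤ Real.exp (Real.exp x / 2) + 2 * N * Real.exp (-((j : ℝ) * σ)) +
          Real.exp (Real.exp x / 2) := by linarith
      _ ≤ N * Real.exp (-(j * x)) + 2 * N * Real.exp (-((j : ℝ) * σ)) := by linarith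
      _ ≤ N * Real.exp (-(j * lo)) + 2 * N * Real.exp (-(j * lo)) := by gcongr
      _ = _ := by ring
  have hT2 : 2 * j ≤ T := by
    have h1 : (2 : ℝ) * j ≤ T := by linarith
    exact_mod_cast h1
  have hTpos : (0 : ℝ) < T := by nlinarith
  have hTpos' : 0 < T := by exact_mod_cast hTpos
  have h1 := bad_le N K T j (3 * N * Real.exp (-(j * lo))) (by positivity) hT2 hTpos' hMx
  refine h1.trans ?_
  have h2 : 2 * (K : ℝ) / T ≤ Real.exp (Real.log 2 + x - 7 * Real.log x) := by
    have h3 : Real.exp (Real.log 2 + x - 7 * Real.log x) = 2 * Real.exp x / x ^ 7 := by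
      rw [Real.exp_sub, Real.exp_add, Real.exp_log (by norm_num)]
      congr 1
      rw [show (7 : ℝ) * Real.log x = ((7 : ℕ) : ℝ) * Real.log x by norm_num, Real.exp_nat_mul,
        Real.exp_log hx0]
    rw [h3, div_le_div_iff₀ hTpos (by positivity)]
    linarith
  have h3 : (2 * (K : ℝ) / T) ^ j ≤ Real.exp (j * (Real.log 2 + x - 7 * Real.log x)) := by
    rw [Real.exp_nat_mul]
    exact pow_le_pow_left₀ (by positivity) h2 j
  calc 3 * N * Real.exp (-(j * lo)) * (2 * (K : ℝ) / T) ^ j
      ≤ 3 * N * Real.exp (-(j * lo)) * Real.exp (j * (Real.log 2 + x - 7 * Real.log x)) := by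
        gcongr
    _ = 3 * N * Real.exp (-(j * lo) + j * (Real.log 2 + x - 7 * Real.log x)) := by
        rw [mul_assoc, ← Real.exp_add]
    _ ≤ 3 * N * Real.exp (-(A * x)) := by
        refine mul_le_mul_of_nonneg_left ?_ (by positivity)
        rw [Real.exp_le_exp]
        have h4 : -(j * lo) + j * (Real.log 2 + x - 7 * Real.log x) =
            -(j * (Real.log x - c - Real.log 2)) := by
          rw [hlo]; ring
        rw [h4, neg_le_neg_iff]
        have h5 : (1 : ℝ) ≤ Real.log x - c - Real.log 2 := by linarith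
        calc (A : ℝ) * x ≤ j := hj1
          _ = j * 1 := by ring
          _ ≤ _ := by gcongr

/-- Few short intervals contain many primes. -/
theorem conc (A : ℕ) (hA : 1 ≤ A) : ∀ᶠ N : ℕ in atTop, ∀ K T : ℕ,
    (K : ℝ) ≤ (Real.log N) ^ A →
    (K : ℝ) * (Real.log (Real.log N)) ^ 7 ≤ T * Real.log N → (Real.log (Real.log N)) ^ 2 ≤ T →
    (((range N).filter fun m => T ≤ cnt m K).card : ℝ) ≤ 3 * N / (Real.log N) ^ A := by
  have h1 : Tendsto (fun N : ℕ => Real.log (Real.log N)) atTop atTop :=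
    Real.tendsto_log_atTop.comp (Real.tendsto_log_atTop.comp tendsto_natCast_atTop_atTop)
  filter_upwards [h1.eventually (conc_core A hA), eventually_ge_atTop 3] with N hN hN3 K T hK hKT hT
  have hNr : (3 : ℝ) ≤ N := by exact_mod_cast hN3
  have hlog : 0 < Real.log N := Real.log_pos (by linarith)
  have h2 : Real.exp (Real.log (Real.log N)) = Real.log N := Real.exp_log hlog
  have h3 : Real.exp (A * Real.log (Real.log N)) = (Real.log N) ^ A := by
    rw [Real.exp_nat_mul, h2]
  have h4 := hN N (by rw [h2, Real.exp_log (by linarith)]) K T (by rw [h3]; exact hK)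
    (by rw [h2]; exact hKT) hT
  rw [Real.exp_neg, h3] at h4
  rw [div_eq_mul_inv]
  exact h4

end Pool.Agent.Lib.MP_e3f158_nt
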