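import Mathlib

/-!
# Iterated-index primes: definitions
-/

namespace Pool.Agent.Lib.MP_e3f158_nt

/-- `pr x` is the `x`-th prime for `x ≥ 1`: `pr 1 = 2`, `pr 2 = 3`, ... -/
noncomputable def pr (x : ℕ) : ℕ := Nat.nth Nat.Prime (x - 1)

/-- `ipr i x` is the `x`-th `i`-prime, the `(i + 1)`-fold iterate of `pr` at `x`. -/
noncomputable def ipr (i x : ℕ) : ℕ := pr^[i + 1] x

/-- `m` has a representation of type `(a, b)`. -/
def HasRep (a b m : ℕ) : Prop :=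
  ∃ x y : ℕ, 1 ≤ x ∧ 1 ≤ y ∧ ipr a x + ipr b y = m ∧ ipr a x ≠ ipr b y

end Pool.Agent.Lib.MP_e3f158_nt
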