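import Pool.Agent.Lib.MP_dd84fd_nt.Dilates
import Pool.Agent.Lib.MP_e3f158_nt.Main

/-!
# Random linear images: two summand sets
-/

namespace Pool.Agent.Lib.MP_e3f158_nt

open Finset Filter Pool.Agent.Lib.MP_dd84fd_nt.Dilates

section two

variable {q : ℕ} [Fact q.Prime] {k : ℕ}

/-- number of representations `x = p₁ + p₂` with `p₁ ∈ A`, `p₂ ∈ B` -/
def rep2 (A B : Finset (ZMod q)) (x : ZMod q) : ℝ := ∑ p ∈ A, if x - p ∈ B then 1 else 0

theorem rep2_sum (A B : Finset (ZMod q)) (S : Finset (Fin k → ZMod q)) (l : Fin k → ZMod q)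
    (b : ZMod q) : ∑ s ∈ S, rep2 A B (b + dot l s) = ∑ p ∈ A, cc B S l (b - p) := by
  unfold rep2 cc
  rw [Finset.sum_comm]
  refine Finset.sum_congr rfl fun p _ => Finset.sum_congr rfl fun s _ => ?_
  congr 2
  ring

/-- For every translate, the deviation is controlled by the variance. -/
theorem dev2 (A B : Finset (ZMod q)) (S : Finset (Fin k → ZMod q)) (l : Fin k → ZMod q)
    (b : ZMod q) :
    (∑ s ∈ S, rep2 A B (b + dot l s) - S.card * A.card * B.card / q) ^ 2 ≤
      A.card * VV B S l := by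
  have h1 : ∑ s ∈ S, rep2 A B (b + dot l s) - S.card * A.card * B.card / q =
      ∑ p ∈ A, (cc B S l (b - p) - S.card * B.card / q) := by
    rw [rep2_sum, Finset.sum_sub_distrib, Finset.sum_const, nsmul_eq_mul]
    ring
  rw [h1]
  refine (sq_sum_le_card_mul_sum_sq (s := A)).trans ?_
  refine mul_le_mul_of_nonneg_left ?_ (Nat.cast_nonneg _)
  unfold VV
  rw [← Fintype.sum_equiv (Equiv.subLeft b)
    (fun p => (cc B S l (b - p) - S.card * B.card / q) ^ 2) _ (fun p => rfl)]
  exact Finset.sum_le_univ_sum_of_nonneg (fun _ => sq_nonneg _)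

/-- Random linear images, two sets. -/
theorem few_bad2 (A B : Finset (ZMod q)) (hA : A.Nonempty) (hB : B.Nonempty)
    (S : Finset (Fin k → ZMod q)) (hS : S.Nonempty) :
    ((univ.filter (fun l : Fin k → ZMod q => ∃ b : ZMod q,
      ∑ s ∈ S, rep2 A B (b + dot l s) < S.card * A.card * B.card / q / 2)).card : ℝ) *
      (S.card * A.card * B.card) ≤ 4 * (q : ℝ) ^ (k + 2) := by
  classical
  have hq : (0 : ℝ) < q := by
    exact_mod_cast (Fact.out : q.Prime).pos
  have ha : (0 : ℝ) < A.card := by exact_mod_cast hA.card_pos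
  have hb : (0 : ℝ) < B.card := by exact_mod_cast hB.card_pos
  have hs : (0 : ℝ) < S.card := by exact_mod_cast hS.card_pos
  set Z := univ.filter (fun l : Fin k → ZMod q => ∃ b : ZMod q,
      ∑ s ∈ S, rep2 A B (b + dot l s) < S.card * A.card * B.card / q / 2) with hZ
  have hV : ∀ l ∈ Z, ((S.card : ℝ) * A.card * B.card / q / 2) ^ 2 / A.card ≤ VV B S l := by
    intro l hl
    obtain ⟨b, hb'⟩ := (mem_filter.1 hl).2
    rw [div_le_iff₀ ha, mul_comm (VV B S l)]
    refine le_trans ?_ (dev2 A B S l b)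
    have h0 : 0 < (S.card : ℝ) * A.card * B.card / q / 2 := by positivity
    have h1 : (S.card : ℝ) * A.card * B.card / q / 2 ≤
        S.card * A.card * B.card / q - ∑ s ∈ S, rep2 A B (b + dot l s) := by linarith
    rw [← neg_sub ((S.card : ℝ) * A.card * B.card / q), neg_sq]
    exact pow_le_pow_left₀ h0.le h1 2
  have h1 := Finset.sum_le_sum hV
  rw [Finset.sum_const, nsmul_eq_mul] at h1
  have h2 : ∑ l ∈ Z, VV B S l ≤ ∑ l, VV B S l :=
    Finset.sum_le_univ_sum_of_nonneg (fun l => Finset.sum_nonneg fun _ _ => sq_nonneg _)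
  have h3 := h1.trans (h2.trans (sum_VV B S))
  have e1 : (Z.card : ℝ) * (((S.card : ℝ) * A.card * B.card / q / 2) ^ 2 / A.card) =
      ((Z.card : ℝ) * (S.card * A.card * B.card)) * (S.card * B.card / (4 * q ^ 2)) := by
    field_simp
    ring
  rw [e1] at h3
  have e2 : (q : ℝ) ^ k * (S.card * B.card) =
      (4 * (q : ℝ) ^ (k + 2)) * (S.card * B.card / (4 * q ^ 2)) := by
    rw [pow_add]
    field_simp
  rw [e2] at h3
  exact le_of_mul_le_mul_right h3 (by positivity)

end two

/-- The `a`-primes in `[3, Y]` (all but possibly the first one). -/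
noncomputable def sm (a Y : ℕ) : Finset ℕ := (Icc 2 (pic (a + 1) Y)).image (ipr a)

theorem card_sm (a Y : ℕ) : (sm a Y).card = pic (a + 1) Y - 1 := by
  unfold sm
  rw [card_image_of_injOn]
  · simp
  · intro x hx x' hx' h
    rw [mem_coe, mem_Icc] at hx hx'
    rcases lt_trichotomy x x' with h1 | h1 | h1
    · have := iter_strictMono (a + 1) x x' (by omega) h1
      unfold ipr at h
      omega
    · exact h1
    · have := iter_strictMono (a + 1) x' x (by omega) h1
      unfold ipr at h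
      omega

theorem mem_sm {a Y n : ℕ} (hn : n ∈ sm a Y) : 3 ≤ n ∧ n ≤ Y ∧ Odd n ∧ ∃ x, 1 ≤ x ∧ ipr a x = n := by
  unfold sm at hn
  rw [mem_image] at hn
  obtain ⟨x, hx, rfl⟩ := hn
  rw [mem_Icc] at hx
  have h1 : ipr a 1 < ipr a x := iter_strictMono (a + 1) 1 x (le_refl _) (by omega)
  have h2 := (ipr_prime a 1).two_le
  exact ⟨by omega, (iter_le_iff (a + 1) x Y (by omega)).2 hx.2,
    odd_of_prime_gt (ipr_prime a x) (by omega), x, by omega, rfl⟩

theorem card_sm_ge (a : ℕ) : ∀ᶠ Y : ℕ in atTop,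
    (Y : ℝ) / (2 * (2 * Real.log Y) ^ (a + 1)) ≤ (sm a Y).card := by
  have h1 := Real.tendsto_log_atTop.comp (tendsto_natCast_atTop_atTop (R := ℝ))
  have h3 := (Real.isLittleO_pow_log_id_atTop (n := a + 1)).bound
      (c := 1 / (2 * 2 ^ (a + 1))) (by positivity)
  filter_upwards [pic_ge (a + 1), tendsto_natCast_atTop_atTop.eventually h3,
    eventually_ge_atTop 3] with Y hY hY2 hY3
  rw [card_sm]
  have hYr : (3 : ℝ) ≤ Y := by exact_mod_cast hY3
  have hlog : 0 < Real.log Y := Real.log_pos (by linarith)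
  simp only [id] at hY2
  rw [Real.norm_of_nonneg (by positivity), Real.norm_of_nonneg (by positivity)] at hY2
  have h4 : 1 ≤ (Y : ℝ) / (2 * (2 * Real.log Y) ^ (a + 1)) := by
    rw [le_div_iff₀ (by positivity), one_mul, mul_pow]
    calc 2 * (2 ^ (a + 1) * (Real.log Y) ^ (a + 1))
        ≤ 2 * (2 ^ (a + 1) * (1 / (2 * 2 ^ (a + 1)) * Y)) := by gcongr
      _ = Y := by field_simp
  have h5 : (pic (a + 1) Y : ℝ) ≤ ((pic (a + 1) Y - 1 : ℕ) : ℝ) + 1 := by
    have : pic (a + 1) Y ≤ pic (a + 1) Y - 1 + 1 := by omega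
    exact_mod_cast this
  have h6 : (Y : ℝ) / (2 * Real.log Y) ^ (a + 1) =
      2 * ((Y : ℝ) / (2 * (2 * Real.log Y) ^ (a + 1))) := by
    field_simp
  linarith

section res

variable {q : ℕ} [Fact q.Prime]

/-- the residues of the `a`-primes in `[3, (q-1)/2]` -/
noncomputable def RA (q a : ℕ) : Finset (ZMod q) := (sm a ((q - 1) / 2)).image (fun p : ℕ => (p : ZMod q))

theorem card_RA (a : ℕ) : (RA q a).card = (sm a ((q - 1) / 2)).card := by
  have hq : 0 < q := (Fact.out : q.Prime).pos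
  unfold RA
  rw [Finset.card_image_of_injOn]
  intro n hn m hm hnm
  have hn' := (mem_sm (mem_coe.1 hn)).2.1
  have hm' := (mem_sm (mem_coe.1 hm)).2.1
  have h : (n : ZMod q).val = (m : ZMod q).val := congrArg ZMod.val hnm
  rwa [ZMod.val_natCast_of_lt (by omega), ZMod.val_natCast_of_lt (by omega)] at h

theorem rep2_le_card (A B : Finset (ZMod q)) (x : ZMod q) : rep2 A B x ≤ A.card := by
  unfold rep2
  calc ∑ p ∈ A, (if x - p ∈ B then (1 : ℝ) else 0) ≤ ∑ p ∈ A, 1 :=
        Finset.sum_le_sum fun p _ => by split_ifs <;> norm_num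
    _ = A.card := by simp

/-- A residue with more than one representation is represented by an even integer of type
`(a, b)`. -/
theorem hasRep_of_rep2 (a b : ℕ) (x : ZMod q) (hx : 1 < rep2 (RA q a) (RA q b) x) :
    Even x.val ∧ HasRep a b x.val := by
  classical
  have hq : 0 < q := (Fact.out : q.Prime).pos
  have : NeZero q := ⟨hq.ne'⟩
  have key : ∀ p ∈ RA q a, x - p ∈ RA q b →
      p.val ∈ sm a ((q - 1) / 2) ∧ (x - p).val ∈ sm b ((q - 1) / 2) ∧
        x.val = p.val + (x - p).val := by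
    intro p hp hp'
    unfold RA at hp hp'
    rw [mem_image] at hp hp'
    obtain ⟨n, hn, rfl⟩ := hp
    obtain ⟨m, hm, hm'⟩ := hp'
    rw [← hm']
    have h1 := (mem_sm hn).2.1
    have h2 := (mem_sm hm).2.1
    have h1' : (n : ZMod q).val = n := ZMod.val_natCast_of_lt (by omega)
    have h2' : (m : ZMod q).val = m := ZMod.val_natCast_of_lt (by omega)
    rw [h1', h2']
    refine ⟨hn, hm, ?_⟩
    have h3 : x = ((n + m : ℕ) : ZMod q) := by
      push_cast
      rw [hm']
      ring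
    rw [h3]
    exact ZMod.val_natCast_of_lt (by omega)
  unfold rep2 at hx
  rw [← Finset.sum_filter, sum_const, nsmul_eq_mul, mul_one] at hx
  have hcard : 1 < ((RA q a).filter fun p => x - p ∈ RA q b).card := by exact_mod_cast hx
  obtain ⟨p, hp, p', hp', hne⟩ := Finset.one_lt_card.1 hcard
  rw [mem_filter] at hp hp'
  obtain ⟨h1, h2, h3⟩ := key p hp.1 hp.2
  obtain ⟨h1', h2', h3'⟩ := key p' hp'.1 hp'.2
  refine ⟨?_, ?_⟩
  · rw [h3]
    exact (mem_sm h1).2.2.1.add_odd (mem_sm h2).2.2.1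
  · by_cases hd : p.val = (x - p).val
    · have hd' : p'.val ≠ (x - p').val := by
        intro hd'
        apply hne
        apply ZMod.val_injective q
        omega
      obtain ⟨u, hu, hu'⟩ := (mem_sm h1').2.2.2
      obtain ⟨v, hv, hv'⟩ := (mem_sm h2').2.2.2
      exact ⟨u, v, hu, hv, by rw [hu', hv', h3'], by rw [hu', hv']; exact hd'⟩
    · obtain ⟨u, hu, hu'⟩ := (mem_sm h1).2.2.2
      obtain ⟨v, hv, hv'⟩ := (mem_sm h2).2.2.2
      exact ⟨u, v, hu, hv, by rw [hu', hv', h3], by rw [hu', hv']; exact hd⟩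

end res

end Pool.Agent.Lib.MP_e3f158_nt
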