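import Pool.Agent.Lib.MP_e3f158_nt.Conc
import Pool.Agent.Lib.MP_e3f158_nt.Defs

/-!
# Iterated primes and the iterated prime counting function
-/

namespace Pool.Agent.Lib.MP_e3f158_nt

open Finset Filter

/-- The iterated prime counting function. -/
noncomputable def pic (k n : ℕ) : ℕ := Nat.primeCounting^[k] n

theorem pic_zero (n : ℕ) : pic 0 n = n := rfl

theorem pic_succ (k n : ℕ) : pic (k + 1) n = Nat.primeCounting (pic k n) := by
  rw [pic, Function.iterate_succ', Function.comp_apply, pic]

theorem pic_mono (k : ℕ) : Monotone (pic k) := by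
  intro a b h
  exact Nat.monotone_primeCounting.iterate k h

theorem pic_at_zero (k : ℕ) : pic k 0 = 0 := by
  induction k with
  | zero => rfl
  | succ k ih => rw [pic_succ, ih]; exact Nat.primeCounting_zero

theorem primeCounting_le_self (n : ℕ) : Nat.primeCounting n ≤ n := by
  rw [Nat.primeCounting, Nat.primeCounting']
  have h : Nat.count Nat.Prime (n + 1) = Nat.count Nat.Prime 1 +
      Nat.count (fun k => Nat.Prime (1 + k)) n := by
    rw [add_comm n 1, Nat.count_add]
  rw [h]
  have h1 : Nat.count Nat.Prime 1 = 0 := by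
    rw [Nat.count_eq_card_filter_range]
    decide
  rw [h1, zero_add]
  exact Nat.count_le _

theorem pic_le (k n : ℕ) : pic k n ≤ n := by
  induction k with
  | zero => exact le_refl _
  | succ k ih => rw [pic_succ]; exact (primeCounting_le_self _).trans ih

theorem primeCounting_add (u K : ℕ) :
    Nat.primeCounting (u + K) = Nat.primeCounting u + cnt u K := by
  rw [Nat.primeCounting, Nat.primeCounting, Nat.primeCounting', show u + K + 1 = (u + 1) + K by ring,
    Nat.count_add, cnt]
  congr 1
  rw [Nat.count_eq_card_filter_range]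
  refine card_bij (fun k _ => k + 1) ?_ ?_ ?_
  · intro k hk
    rw [mem_filter, mem_range] at hk
    rw [mem_filter, mem_Ioc]
    refine ⟨⟨by omega, by omega⟩, ?_⟩
    rw [show u + (k + 1) = u + 1 + k by ring]
    exact hk.2
  · intro a _ b _ h
    omega
  · intro b hb
    rw [mem_filter, mem_Ioc] at hb
    refine ⟨b - 1, ?_, by omega⟩
    rw [mem_filter, mem_range]
    refine ⟨by omega, ?_⟩
    rw [show u + 1 + (b - 1) = u + b by omega]
    exact hb.2

theorem cnt_mono (m : ℕ) {K K' : ℕ} (h : K ≤ K') : cnt m K ≤ cnt m K' := by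
  unfold cnt
  exact card_le_card (filter_subset_filter _ (Ioc_subset_Ioc_right h))

theorem cnt_le (m K : ℕ) : cnt m K ≤ K := by
  unfold cnt
  refine (card_filter_le _ _).trans ?_
  simp

/-- Galois connection between the `x`-th prime and the prime counting function. -/
theorem pr_le_iff (k n : ℕ) (hk : 1 ≤ k) : pr k ≤ n ↔ k ≤ Nat.primeCounting n := by
  rw [pr, Nat.primeCounting, Nat.primeCounting']
  have h := Nat.lt_nth_iff_count_lt (p := Nat.Prime) Nat.infinite_setOfPred_prime (a := k - 1) (b := n + 1)
  have h2 : Nat.nth Nat.Prime (k - 1) ≤ n ↔ Nat.nth Nat.Prime (k - 1) < n + 1 := Nat.lt_succ_iff.symm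
  rw [h2, ← h]
  omega

theorem pr_prime (k : ℕ) : (pr k).Prime := Nat.prime_nth_prime _

theorem iter_le_iff (i : ℕ) : ∀ k n : ℕ, 1 ≤ k → (pr^[i] k ≤ n ↔ k ≤ pic i n) := by
  induction i with
  | zero => intro k n _; rfl
  | succ i ih =>
    intro k n hk
    rw [Function.iterate_succ_apply, ih (pr k) n (pr_prime k).pos, pr_le_iff k _ hk, pic_succ]

theorem pr_strictMono {x y : ℕ} (hx : 1 ≤ x) (h : x < y) : pr x < pr y := by
  rw [pr, pr]
  exact Nat.nth_strictMono Nat.infinite_setOfPred_prime (by omega)

theorem iter_pos (i : ℕ) : ∀ x : ℕ, 1 ≤ x → 1 ≤ pr^[i] x := by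
  induction i with
  | zero => intro x hx; exact hx
  | succ i ih =>
    intro x hx
    rw [Function.iterate_succ_apply]
    exact ih _ (pr_prime x).pos

theorem iter_strictMono (i : ℕ) : ∀ x y : ℕ, 1 ≤ x → x < y → pr^[i] x < pr^[i] y := by
  induction i with
  | zero => intro x y _ h; exact h
  | succ i ih =>
    intro x y hx h
    rw [Function.iterate_succ_apply, Function.iterate_succ_apply]
    exact ih _ _ (pr_prime x).pos (pr_strictMono hx h)

theorem le_iter (i : ℕ) : ∀ x : ℕ, 1 ≤ x → x ≤ pr^[i] x := by
  intro x hx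
  have h := (iter_le_iff i x (pr^[i] x) hx).1 (le_refl _)
  exact h.trans (pic_le _ _)

theorem ipr_prime (i x : ℕ) : (ipr i x).Prime := by
  rw [ipr, Function.iterate_succ_apply']
  exact pr_prime _

/-- The increments of the iterated prime counting function along a step. -/
theorem pic_step (k u v : ℕ) (h : u ≤ v) :
    pic (k + 1) v = pic (k + 1) u + cnt (pic k u) (pic k v - pic k u) := by
  rw [pic_succ, pic_succ, ← primeCounting_add]
  congr 1
  have := pic_mono k h
  omega

theorem pic_step_le (k u v : ℕ) (h : u ≤ v) : pic k v - pic k u ≤ v - u := by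
  induction k with
  | zero => exact le_refl _
  | succ k ih =>
    rw [pic_step k u v h]
    have := cnt_le (pic k u) (pic k v - pic k u)
    omega

/-- Number of blocks with too many iterated primes. -/
theorem bad_blocks (N n H : ℕ) (hN : n * H ≤ N) (K β : ℕ → ℕ) (hK0 : H ≤ K 0) (R : ℕ)
    (hβ : ∀ k < R, ((range N).filter fun m => K (k + 1) + 1 ≤ cnt m (K k)).card ≤ β k) :
    ((range n).filter fun i => K R < pic R ((i + 1) * H) - pic R (i * H)).card ≤
      ∑ k ∈ range R, β k := by
  induction R with
  | zero =>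
    rw [range_zero, sum_empty, Nat.le_zero, card_eq_zero, filter_eq_empty_iff]
    intro i _
    rw [pic_zero, pic_zero, not_lt]
    have : (i + 1) * H - i * H = H := by
      rw [add_mul, one_mul]; omega
    rw [this]
    exact hK0
  | succ R ih =>
    rw [sum_range_succ]
    have h1 := ih fun k hk => hβ k (by omega)
    have h2 := hβ R (by omega)
    set B2 := (range n).filter fun i => pic R ((i + 1) * H) - pic R (i * H) ≤ K R ∧
      K (R + 1) < cnt (pic R (i * H)) (pic R ((i + 1) * H) - pic R (i * H)) with hB2
    have h3 : (range n).filter (fun i => K (R + 1) <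
        pic (R + 1) ((i + 1) * H) - pic (R + 1) (i * H)) ⊆
        ((range n).filter fun i => K R < pic R ((i + 1) * H) - pic R (i * H)) ∪ B2 := by
      intro i hi
      rw [mem_filter] at hi
      rw [mem_union, mem_filter, hB2, mem_filter]
      have hle : i * H ≤ (i + 1) * H := Nat.mul_le_mul_right _ (by omega)
      rw [pic_step R _ _ hle, Nat.add_sub_cancel_left] at hi
      by_cases h : K R < pic R ((i + 1) * H) - pic R (i * H)
      · exact Or.inl ⟨hi.1, h⟩
      · exact Or.inr ⟨hi.1, by omega, hi.2⟩
    have h4 : B2.card ≤ ((range N).filter fun m => K (R + 1) + 1 ≤ cnt m (K R)).card := by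
      refine card_le_card_of_injOn (fun i => pic R (i * H)) ?_ ?_
      · intro i hi
        rw [hB2, mem_coe, mem_filter, mem_range] at hi
        rw [mem_coe, mem_filter, mem_range]
        change pic R (i * H) < N ∧ K (R + 1) + 1 ≤ cnt (pic R (i * H)) (K R)
        refine ⟨?_, ?_⟩
        · have h5 := pic_le R (i * H)
          have h6 : 0 < cnt (pic R (i * H)) (pic R ((i + 1) * H) - pic R (i * H)) := by omega
          have h7 : 0 < pic R ((i + 1) * H) - pic R (i * H) :=
            lt_of_lt_of_le h6 (cnt_le _ _)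
          have h8 : (i + 1) * H ≤ n * H := Nat.mul_le_mul_right _ (by omega)
          have h9 := pic_le R ((i + 1) * H)
          omega
        · have h5 := cnt_mono (pic R (i * H)) hi.2.1
          omega
      · intro i hi i' hi' heq
        rw [hB2, mem_coe, mem_filter] at hi hi'
        have pos : ∀ i, K (R + 1) < cnt (pic R (i * H)) (pic R ((i + 1) * H) - pic R (i * H)) →
            pic R (i * H) < pic R ((i + 1) * H) := by
          intro i h
          have := cnt_le (pic R (i * H)) (pic R ((i + 1) * H) - pic R (i * H))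
          omega
        simp only at heq
        rcases lt_trichotomy i i' with h | h | h
        · have h5 := pos i hi.2.2
          have h6 : pic R ((i + 1) * H) ≤ pic R (i' * H) :=
            pic_mono R (Nat.mul_le_mul_right _ (by omega))
          omega
        · exact h
        · have h5 := pos i' hi'.2.2
          have h6 : pic R ((i' + 1) * H) ≤ pic R (i * H) :=
            pic_mono R (Nat.mul_le_mul_right _ (by omega))
          omega
    calc _ ≤ _ := card_le_card h3
      _ ≤ _ := card_union_le _ _
      _ ≤ _ := Nat.add_le_add h1 (h4.trans h2)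

/-- Total mass of the blocks. -/
theorem mass (n H K B R : ℕ)
    (hB : ((range n).filter fun i => K < pic R ((i + 1) * H) - pic R (i * H)).card ≤ B) :
    pic R (n * H) ≤
      ((range n).filter fun i => pic R (i * H) < pic R ((i + 1) * H)).card * K + B * H := by
  have h1 : pic R (n * H) = ∑ i ∈ range n, (pic R ((i + 1) * H) - pic R (i * H)) := by
    have h2 := Finset.sum_range_tsub (f := fun i => pic R (i * H))
      (fun a b h => pic_mono R (Nat.mul_le_mul_right H h)) n
    rw [h2]
    simp [pic_at_zero]
  rw [h1]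
  have h2 : ∀ i ∈ range n, pic R ((i + 1) * H) - pic R (i * H) ≤
      (if pic R (i * H) < pic R ((i + 1) * H) then K else 0) +
      (if K < pic R ((i + 1) * H) - pic R (i * H) then H else 0) := by
    intro i _
    have hle : i * H ≤ (i + 1) * H := Nat.mul_le_mul_right _ (by omega)
    have h3 := pic_step_le R _ _ hle
    have h4 : (i + 1) * H - i * H = H := by rw [add_mul, one_mul]; omega
    rw [h4] at h3
    split_ifs <;> omega
  refine (sum_le_sum h2).trans ?_
  rw [sum_add_distrib, ← sum_filter, ← sum_filter, sum_const, sum_const, smul_eq_mul, smul_eq_mul]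
  exact Nat.add_le_add_left (Nat.mul_le_mul_right _ hB) _

theorem odd_of_prime_gt {p : ℕ} (hp : p.Prime) (h : 2 < p) : Odd p :=
  hp.odd_of_ne_two (by omega)

open Classical in
/-- The sums of one iterated prime from each block and a small iterated prime, for blocks with
index in a fixed parity class. -/
theorem sum_lemma_aux (a b N n H c : ℕ) (hn : (n + 1) * H ≤ N) :
    ((range n).filter fun i => i % 2 = c ∧ 1 ≤ i ∧
        pic (b + 1) (i * H) < pic (b + 1) ((i + 1) * H)).card * (pic (a + 1) H - 1) ≤
      ((Icc 1 N).filter fun m => Even m ∧ HasRep a b m).card := by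
  set F := (range n).filter fun i => i % 2 = c ∧ 1 ≤ i ∧
        pic (b + 1) (i * H) < pic (b + 1) ((i + 1) * H) with hF
  have hX : (Icc 2 (pic (a + 1) H)).card = pic (a + 1) H - 1 := by simp
  rw [← hX, ← card_product]
  let q : ℕ → ℕ := fun i => ipr b (pic (b + 1) ((i + 1) * H))
  have hq : ∀ i ∈ F, i * H < q i ∧ q i ≤ (i + 1) * H ∧ 1 ≤ pic (b + 1) ((i + 1) * H) := by
    intro i hi
    rw [hF, mem_filter] at hi
    have hy : 1 ≤ pic (b + 1) ((i + 1) * H) := by omega
    refine ⟨?_, ?_, hy⟩
    · have h1 := iter_le_iff (b + 1) (pic (b + 1) ((i + 1) * H)) (i * H) hy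
      by_contra h2
      rw [not_lt] at h2
      have := h1.1 h2
      omega
    · exact (iter_le_iff (b + 1) _ _ hy).2 (le_refl _)
  have hx : ∀ x ∈ Icc 2 (pic (a + 1) H), 3 ≤ ipr a x ∧ ipr a x ≤ H := by
    intro x hx
    rw [mem_Icc] at hx
    refine ⟨?_, (iter_le_iff (a + 1) x H (by omega)).2 hx.2⟩
    have h1 : ipr a 1 < ipr a x := iter_strictMono (a + 1) 1 x (le_refl _) (by omega)
    have h2 := (ipr_prime a 1).two_le
    omega
  refine card_le_card_of_injOn (fun ix : ℕ × ℕ => q ix.1 + ipr a ix.2) ?_ ?_
  · rintro ⟨i, x⟩ hix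
    rw [mem_coe, mem_product] at hix
    obtain ⟨h1, h2, h3⟩ := hq i hix.1
    obtain ⟨h4, h5⟩ := hx x hix.2
    have hiF := hix.1
    rw [hF, mem_filter, mem_range] at hiF
    have h6 : 1 * H ≤ i * H := Nat.mul_le_mul_right _ hiF.2.2.1
    have h7 : (i + 2) * H ≤ (n + 1) * H := Nat.mul_le_mul_right _ (by omega)
    have h8 : (i + 2) * H = (i + 1) * H + H := by ring
    rw [mem_coe, mem_filter, mem_Icc]
    change (1 ≤ q i + ipr a x ∧ q i + ipr a x ≤ N) ∧ Even (q i + ipr a x) ∧
      HasRep a b (q i + ipr a x)
    refine ⟨⟨by omega, by omega⟩, ?_, ?_⟩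
    · exact (odd_of_prime_gt (ipr_prime b _) (by change 2 < q i; omega)).add_odd
        (odd_of_prime_gt (ipr_prime a x) (by omega))
    · refine ⟨x, pic (b + 1) ((i + 1) * H), ?_, h3, add_comm _ _, ?_⟩
      · exact (by norm_num : 1 ≤ 2).trans (mem_Icc.1 hix.2).1
      · change ipr a x ≠ q i
        omega
  · rintro ⟨i, x⟩ hix ⟨i', x'⟩ hix' heq
    rw [mem_coe, mem_product] at hix hix'
    have heq' : q i + ipr a x = q i' + ipr a x' := heq
    obtain ⟨h1, h2, h3⟩ := hq i hix.1
    obtain ⟨h4, h5⟩ := hx x hix.2
    obtain ⟨h1', h2', h3'⟩ := hq i' hix'.1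
    obtain ⟨h4', h5'⟩ := hx x' hix'.2
    have hiF := (mem_filter.1 hix.1).2.1
    have hiF' := (mem_filter.1 hix'.1).2.1
    have hii : i = i' := by
      rcases lt_trichotomy i i' with h | h | h
      · exfalso
        have h6 : (i + 2) * H ≤ i' * H := Nat.mul_le_mul_right _ (by omega)
        have h8 : (i + 2) * H = (i + 1) * H + H := by ring
        omega
      · exact h
      · exfalso
        have h6 : (i' + 2) * H ≤ i * H := Nat.mul_le_mul_right _ (by omega)
        have h8 : (i' + 2) * H = (i' + 1) * H + H := by ring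
        omega
    subst hii
    have hxx : ipr a x = ipr a x' := by omega
    have h9 : x = x' := by
      have hx1 := (mem_Icc.1 hix.2).1
      have hx1' := (mem_Icc.1 hix'.2).1
      simp only at hx1 hx1'
      rcases lt_trichotomy x x' with h | h | h
      · have := iter_strictMono (a + 1) x x' (by omega) h
        unfold ipr at hxx
        omega
      · exact h
      · have := iter_strictMono (a + 1) x' x (by omega) h
        unfold ipr at hxx
        omega
    rw [h9]

open Classical in
/-- The number of represented even integers in terms of the number of blocks containing an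
iterated prime. -/
theorem sum_lemma (a b N n H : ℕ) (hn : (n + 1) * H ≤ N) :
    (((range n).filter fun i =>
        pic (b + 1) (i * H) < pic (b + 1) ((i + 1) * H)).card - 1) * (pic (a + 1) H - 1) ≤
      2 * ((Icc 1 N).filter fun m => Even m ∧ HasRep a b m).card := by
  have h0 := sum_lemma_aux a b N n H 0 hn
  have h1 := sum_lemma_aux a b N n H 1 hn
  have h2 : ((range n).filter fun i =>
        pic (b + 1) (i * H) < pic (b + 1) ((i + 1) * H)).card ≤
      ((range n).filter fun i => i % 2 = 0 ∧ 1 ≤ i ∧
        pic (b + 1) (i * H) < pic (b + 1) ((i + 1) * H)).card +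
      ((range n).filter fun i => i % 2 = 1 ∧ 1 ≤ i ∧
        pic (b + 1) (i * H) < pic (b + 1) ((i + 1) * H)).card + 1 := by
    have h3 : ((range n).filter fun i =>
        pic (b + 1) (i * H) < pic (b + 1) ((i + 1) * H)) ⊆
      ((range n).filter fun i => i % 2 = 0 ∧ 1 ≤ i ∧
        pic (b + 1) (i * H) < pic (b + 1) ((i + 1) * H)) ∪
      ((range n).filter fun i => i % 2 = 1 ∧ 1 ≤ i ∧
        pic (b + 1) (i * H) < pic (b + 1) ((i + 1) * H)) ∪ {0} := by
      intro i hi
      rw [mem_filter] at hi
      rw [mem_union, mem_union, mem_filter, mem_filter, mem_singleton]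
      by_cases hi0 : i = 0
      · exact Or.inr hi0
      · rcases Nat.mod_two_eq_zero_or_one i with h | h
        · exact Or.inl (Or.inl ⟨hi.1, h, by omega, hi.2⟩)
        · exact Or.inl (Or.inr ⟨hi.1, h, by omega, hi.2⟩)
    refine (card_le_card h3).trans ((card_union_le _ _).trans ?_)
    rw [card_singleton]
    exact Nat.add_le_add_right (card_union_le _ _) 1
  calc _ ≤ (((range n).filter fun i => i % 2 = 0 ∧ 1 ≤ i ∧
        pic (b + 1) (i * H) < pic (b + 1) ((i + 1) * H)).card +
      ((range n).filter fun i => i % 2 = 1 ∧ 1 ≤ i ∧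
        pic (b + 1) (i * H) < pic (b + 1) ((i + 1) * H)).card) * (pic (a + 1) H - 1) :=
        Nat.mul_le_mul_right _ (by omega)
    _ = _ := add_mul _ _ _
    _ ≤ _ := Nat.add_le_add h0 h1
    _ = _ := by ring

end Pool.Agent.Lib.MP_e3f158_nt
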