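import Pool.Agent.Lib.MP_e3f158_nt.Orbit2

/-!
# Random linear images of arbitrary sets
-/

namespace Pool.Agent.Lib.MP_e3f158_nt

open Finset Filter Pool.Agent.Lib.MP_dd84fd_nt.Dilates

theorem hasRep_symm (a b m : ℕ) : HasRep a b m ↔ HasRep b a m := by
  constructor
  · rintro ⟨x, y, hx, hy, h, hne⟩
    exact ⟨y, x, hy, hx, by rw [add_comm]; exact h, hne.symm⟩
  · rintro ⟨x, y, hx, hy, h, hne⟩
    exact ⟨y, x, hy, hx, by rw [add_comm]; exact h, hne.symm⟩

theorem linear_images (a b : ℕ) : ∃ (C c : ℝ) (q₀ : ℕ), 0 < C ∧ 0 < c ∧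
    ∀ q : ℕ, q.Prime → q₀ ≤ q → ∀ (k : ℕ) (S : Finset (Fin k → ZMod q)),
      (({l : Fin k → ZMod q | ¬ ∀ t : ZMod q, c * S.card / (Real.log q) ^ (b + 1) ≤
          (({s : Fin k → ZMod q | s ∈ S ∧ Even (t + ∑ i, l i * s i).val ∧
            HasRep a b (t + ∑ i, l i * s i).val}.ncard : ℕ) : ℝ)}.ncard : ℕ) : ℝ) * S.card ≤
        C * (Real.log q) ^ (a + b + 2) * (q : ℝ) ^ k := by
  obtain ⟨q₀, hq₀⟩ := eventually_atTop.1 ((size a).and ((size b).and
    ((logs (a + b + 2) (144 * 2 ^ (a + b + 2)) (by positivity)).and (eventually_ge_atTop 3))))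
  refine ⟨144 * 2 ^ (a + b + 2), 1 / (24 * 2 ^ (b + 1)), q₀, by positivity, by positivity, ?_⟩
  intro q hqp hq k S
  have : Fact q.Prime := ⟨hqp⟩
  obtain ⟨hA, hB, hlog, hq3⟩ := hq₀ q hq
  have hqr : (3 : ℝ) ≤ q := by exact_mod_cast hq3
  have hL : 0 < Real.log q := Real.log_pos (by linarith)
  rw [← card_RA (q := q)] at hA hB
  set L := Real.log q with hLdef
  have hA0 : 0 < (q : ℝ) / (6 * (2 * L) ^ (a + 1)) := by positivity
  have hB0 : 0 < (q : ℝ) / (6 * (2 * L) ^ (b + 1)) := by positivity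
  have hAp : (0 : ℝ) < (RA q a).card := lt_of_lt_of_le hA0 hA
  have hBp : (0 : ℝ) < (RA q b).card := lt_of_lt_of_le hB0 hB
  have hAne : (RA q a).Nonempty := by
    rw [← Finset.card_pos]; exact_mod_cast hAp
  have hBne : (RA q b).Nonempty := by
    rw [← Finset.card_pos]; exact_mod_cast hBp
  have hAB : (q : ℝ) ^ 2 / (36 * (2 * L) ^ (a + b + 2)) ≤ (RA q a).card * (RA q b).card := by
    calc (q : ℝ) ^ 2 / (36 * (2 * L) ^ (a + b + 2)) =
        (q : ℝ) / (6 * (2 * L) ^ (a + 1)) * ((q : ℝ) / (6 * (2 * L) ^ (b + 1))) := by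
          rw [show a + b + 2 = (a + 1) + (b + 1) by ring, pow_add]
          field_simp
          norm_num
      _ ≤ _ := by gcongr
  rcases S.eq_empty_or_nonempty with rfl | hS
  · simp only [Finset.card_empty, Nat.cast_zero, mul_zero]
    positivity
  classical
  have hSp : (0 : ℝ) < S.card := by exact_mod_cast hS.card_pos
  have hfew := few_bad2 (RA q a) (RA q b) hAne hBne S hS
  set Z := univ.filter (fun l : Fin k → ZMod q => ∃ t : ZMod q,
      ∑ s ∈ S, rep2 (RA q a) (RA q b) (t + dot l s) <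
        S.card * (RA q a).card * (RA q b).card / q / 2) with hZ
  have hsub : {l : Fin k → ZMod q | ¬ ∀ t : ZMod q,
      1 / (24 * 2 ^ (b + 1)) * S.card / L ^ (b + 1) ≤
          (({s : Fin k → ZMod q | s ∈ S ∧ Even (t + ∑ i, l i * s i).val ∧
            HasRep a b (t + ∑ i, l i * s i).val}.ncard : ℕ) : ℝ)} ⊆ (Z : Set (Fin k → ZMod q)) := by
    intro l hl
    simp only [Set.mem_ofPred_eq, not_forall] at hl
    obtain ⟨t, ht⟩ := hl
    rw [hZ, Finset.coe_filter]
    refine ⟨mem_univ _, t, ?_⟩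
    by_contra hcon
    push Not at hcon
    apply ht
    set G := S.filter fun s => Even (t + ∑ i, l i * s i).val ∧
      HasRep a b (t + ∑ i, l i * s i).val with hG
    have hGeq : {s : Fin k → ZMod q | s ∈ S ∧ Even (t + ∑ i, l i * s i).val ∧
            HasRep a b (t + ∑ i, l i * s i).val} = (G : Set (Fin k → ZMod q)) := by
      ext s
      rw [hG, Finset.coe_filter]
    rw [hGeq, Set.ncard_coe_finset]
    have h1 : ∀ s ∈ S, rep2 (RA q a) (RA q b) (t + dot l s) ≤
        1 + (if Even (t + ∑ i, l i * s i).val ∧ HasRep a b (t + ∑ i, l i * s i).val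
          then ((RA q a).card : ℝ) else 0) := by
      intro s _
      by_cases h : 1 < rep2 (RA q a) (RA q b) (t + dot l s)
      · have hh : Even (t + ∑ i, l i * s i).val ∧ HasRep a b (t + ∑ i, l i * s i).val :=
          hasRep_of_rep2 a b _ h
        rw [if_pos hh]
        have := rep2_le_card (RA q a) (RA q b) (t + dot l s)
        linarith
      · push Not at h
        have : (0 : ℝ) ≤ (if Even (t + ∑ i, l i * s i).val ∧ HasRep a b (t + ∑ i, l i * s i).val
          then ((RA q a).card : ℝ) else 0) := by split_ifs <;> positivity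
        linarith
    have h2 := hcon.trans (Finset.sum_le_sum h1)
    rw [Finset.sum_add_distrib, Finset.sum_const, nsmul_eq_mul, mul_one, ← Finset.sum_filter,
      Finset.sum_const, nsmul_eq_mul, ← hG] at h2
    -- the diagonal is negligible
    have h3 : (4 : ℝ) * q ≤ (RA q a).card * (RA q b).card := by
      refine le_trans ?_ hAB
      rw [le_div_iff₀ (by positivity), mul_pow]
      calc 4 * (q : ℝ) * (36 * (2 ^ (a + b + 2) * L ^ (a + b + 2)))
          = q * (144 * 2 ^ (a + b + 2) * L ^ (a + b + 2)) := by ring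
        _ ≤ q * q := by gcongr
        _ = _ := by ring
    have hq0 : (0 : ℝ) < q := by linarith
    have h4 : (S.card : ℝ) ≤ S.card * (RA q a).card * (RA q b).card / q / 4 := by
      rw [le_div_iff₀ (by norm_num), le_div_iff₀ hq0]
      nlinarith
    have h5 : (S.card : ℝ) * (RA q a).card * (RA q b).card / q / 4 ≤ G.card * (RA q a).card := by
      have e : (S.card : ℝ) * (RA q a).card * (RA q b).card / q / 2 =
        S.card * (RA q a).card * (RA q b).card / q / 4 +
          S.card * (RA q a).card * (RA q b).card / q / 4 := by ring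
      linarith
    have h6 : (S.card : ℝ) * (RA q b).card / q / 4 ≤ G.card := by
      have e : (S.card : ℝ) * (RA q a).card * (RA q b).card / q / 4 =
        (S.card * (RA q b).card / q / 4) * (RA q a).card := by ring
      rw [e] at h5
      exact le_of_mul_le_mul_right h5 hAp
    refine le_trans ?_ h6
    calc 1 / (24 * 2 ^ (b + 1)) * (S.card : ℝ) / L ^ (b + 1)
        = S.card * ((q : ℝ) / (6 * (2 * L) ^ (b + 1))) / q / 4 := by
          rw [mul_pow]
          field_simp
          norm_num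
      _ ≤ _ := by gcongr
  have hle := Set.ncard_le_ncard hsub (Finset.finite_toSet Z)
  rw [Set.ncard_coe_finset] at hle
  have hle' : (({l : Fin k → ZMod q | ¬ ∀ t : ZMod q,
      1 / (24 * 2 ^ (b + 1)) * S.card / L ^ (b + 1) ≤
          (({s : Fin k → ZMod q | s ∈ S ∧ Even (t + ∑ i, l i * s i).val ∧
            HasRep a b (t + ∑ i, l i * s i).val}.ncard : ℕ) : ℝ)}.ncard : ℕ) : ℝ) ≤ Z.card := by
    exact_mod_cast hle
  refine (mul_le_mul_of_nonneg_right hle' (Nat.cast_nonneg _)).trans ?_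
  have h2 : (Z.card : ℝ) * S.card * ((q : ℝ) ^ 2 / (36 * (2 * L) ^ (a + b + 2))) ≤
      4 * (q : ℝ) ^ (k + 2) := by
    refine le_trans ?_ hfew
    calc (Z.card : ℝ) * S.card * ((q : ℝ) ^ 2 / (36 * (2 * L) ^ (a + b + 2)))
        ≤ (Z.card : ℝ) * S.card * ((RA q a).card * (RA q b).card) := by gcongr
      _ = _ := by ring
  have h3 : 4 * (q : ℝ) ^ (k + 2) =
      (144 * 2 ^ (a + b + 2) * L ^ (a + b + 2) * (q : ℝ) ^ k) *
        ((q : ℝ) ^ 2 / (36 * (2 * L) ^ (a + b + 2))) := by
    rw [pow_add (q : ℝ) k 2, mul_pow 2 L]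
    field_simp
    norm_num
  rw [h3] at h2
  exact le_of_mul_le_mul_right h2 (by positivity)

end Pool.Agent.Lib.MP_e3f158_nt
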