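import Pool.Agent.Lib.MP_e3f158_nt.Iter

/-!
# Lower bounds for iterated primes
-/

namespace Pool.Agent.Lib.MP_e3f158_nt

open Finset

theorem primeCounting_two_mul (m : ℕ) (hm : 1 ≤ m) : Nat.primeCounting (2 * m) ≤ m := by
  induction m, hm using Nat.le_induction with
  | base => decide +kernel
  | succ m hm ih =>
    rw [show 2 * (m + 1) = 2 * m + 2 by ring, primeCounting_add]
    have h : cnt (2 * m) 2 ≤ 1 := by
      unfold cnt
      rw [card_le_one]
      intro x hx y hy
      rw [mem_filter, mem_Ioc] at hx hy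
      have key : ∀ x : ℕ, 0 < x → x ≤ 2 → (2 * m + x).Prime → x = 1 := by
        intro x h0 h2 hp
        by_contra h1
        have h3 : x = 2 := by omega
        subst h3
        have h4 : 2 ∣ 2 * m + 2 := ⟨m + 1, by ring⟩
        have h5 := (Nat.prime_dvd_prime_iff_eq Nat.prime_two hp).1 h4
        omega
      rw [key x hx.1.1 hx.1.2 hx.2, key y hy.1.1 hy.1.2 hy.2]
    omega

theorem two_mul_le_pr (y : ℕ) (hy : 1 ≤ y) : 2 * y - 1 ≤ pr y := by
  rcases Nat.lt_or_ge y 2 with h | h
  · have := (pr_prime y).two_le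
    omega
  · by_contra hlt
    have h1 : pr y ≤ 2 * (y - 1) := by omega
    have h2 := (pr_le_iff y _ hy).1 h1
    have h3 := primeCounting_two_mul (y - 1) (by omega)
    omega

theorem iter_growth (x : ℕ) (hx : 1 ≤ x) (i : ℕ) : 2 ^ i + 1 ≤ pr^[i + 1] x := by
  induction i with
  | zero =>
    rw [Function.iterate_succ_apply, Function.iterate_zero, id]
    exact (pr_prime x).two_le
  | succ i ih =>
    rw [Function.iterate_succ_apply' pr (i + 1)]
    have h1 := two_mul_le_pr (pr^[i + 1] x) (iter_pos (i + 1) x hx)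
    have h2 : 2 ^ (i + 1) = 2 * 2 ^ i := by ring
    omega

theorem pr_ge (y : ℕ) (hy : 1 ≤ y) : (y : ℝ) * Real.log (pr y) ≤ 5 * pr y := by
  have hP : (2 : ℝ) ≤ (pr y : ℝ) := by exact_mod_cast (pr_prime y).two_le
  set P : ℝ := (pr y : ℝ) with hPdef
  have h1 := Chebyshev.pi_le_log4_mul_div (x := P) (by linarith)
  have h2 : ⌊P⌋₊ = pr y := by rw [hPdef, Nat.floor_natCast]
  rw [h2] at h1
  have h3 : (y : ℝ) ≤ Nat.primeCounting (pr y) := by
    exact_mod_cast (pr_le_iff y (pr y) hy).1 (le_refl _)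
  have h4 := h3.trans h1
  have hlog : 0 < Real.log P := Real.log_pos (by linarith)
  have hsq : Real.log (√P) = Real.log P / 2 := Real.log_sqrt (by linarith)
  rw [hsq] at h4
  have hlog4 : Real.log 4 = 2 * Real.log 2 := by
    rw [show (4 : ℝ) = 2 ^ 2 by norm_num, Real.log_pow]; norm_num
  have hl2 := Real.log_two_lt_d9
  have hsP : 0 < √P := Real.sqrt_pos.2 (by linarith)
  have h5 : Real.log P ≤ 2 * √P := by
    have h6 := Real.log_le_sub_one_of_pos hsP
    rw [hsq] at h6
    linarith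
  have h6 : √P * Real.log P ≤ 2 * P := by
    have h7 : √P * √P = P := Real.mul_self_sqrt (by linarith)
    nlinarith
  calc (y : ℝ) * Real.log P ≤ (Real.log 4 * P / (Real.log P / 2) + √P) * Real.log P := by gcongr
    _ = 2 * Real.log 4 * P + √P * Real.log P := by
        field_simp
    _ ≤ 5 * P := by
        rw [hlog4]
        nlinarith

/-- Lower bound for the iterates. -/
theorem iter_ge (x : ℕ) (hx : 1 ≤ x) (k : ℕ) :
    (x : ℝ) * (k.factorial * (Real.log 2 / 5) ^ k) ≤ pr^[k + 1] x := by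
  induction k with
  | zero =>
    rw [Function.iterate_succ_apply, Function.iterate_zero, id]
    have := le_iter 1 x hx
    simp only [Function.iterate_one] at this
    simp only [Nat.factorial_zero, Nat.cast_one, pow_zero, mul_one]
    exact_mod_cast this
  | succ k ih =>
    rw [Function.iterate_succ_apply' pr (k + 1)]
    set u := pr^[k + 1] x with hu
    have hu1 : 1 ≤ u := iter_pos (k + 1) x hx
    have h1 := pr_ge u hu1
    have h2 := iter_growth x hx (k + 1)
    rw [Function.iterate_succ_apply' pr (k + 1), ← hu] at h2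
    have h3 : ((k : ℝ) + 1) * Real.log 2 ≤ Real.log (pr u) := by
      have h4 : Real.log ((2 : ℝ) ^ (k + 1)) ≤ Real.log (pr u) := by
        refine Real.log_le_log (by positivity) ?_
        have h5 : 2 ^ (k + 1) ≤ pr u := by omega
        exact_mod_cast h5
      rw [Real.log_pow] at h4
      push_cast at h4
      exact h4
    have h4 : (u : ℝ) * (((k : ℝ) + 1) * Real.log 2) ≤ 5 * pr u := by
      refine le_trans ?_ h1
      gcongr
    rw [Nat.factorial_succ, pow_succ]
    push_cast
    have hl : 0 < Real.log 2 := Real.log_pos (by norm_num)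
    have h5 : (x : ℝ) * (((k : ℝ) + 1) * k.factorial * ((Real.log 2 / 5) ^ k * (Real.log 2 / 5))) =
        ((x : ℝ) * (k.factorial * (Real.log 2 / 5) ^ k)) * (((k : ℝ) + 1) * Real.log 2) / 5 := by
      ring
    rw [h5, div_le_iff₀ (by norm_num)]
    calc ((x : ℝ) * (k.factorial * (Real.log 2 / 5) ^ k)) * (((k : ℝ) + 1) * Real.log 2)
        ≤ (u : ℝ) * (((k : ℝ) + 1) * Real.log 2) := by gcongr
      _ ≤ 5 * pr u := h4
      _ = _ := by ring

/-- Simplified lower bound for the iterates. -/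
theorem iter_ge' (x : ℕ) (hx : 1 ≤ x) (k : ℕ) (hk : 1 ≤ k) :
    (x : ℝ) * ((k : ℝ) / 40) ^ k ≤ pr^[k] x := by
  obtain ⟨n, rfl⟩ : ∃ n, k = n + 1 := ⟨k - 1, by omega⟩
  refine le_trans ?_ (iter_ge x hx n)
  refine mul_le_mul_of_nonneg_left ?_ (by positivity)
  have hl := Real.log_two_gt_d9
  have hl' := Real.log_two_lt_d9
  set k : ℝ := ((n + 1 : ℕ) : ℝ) with hkdef
  have hk0 : 0 < k := by rw [hkdef]; positivity
  have h1 : k ^ (n + 1) / (n + 1).factorial ≤ Real.exp k := Real.pow_div_factorial_le_exp k hk0.le _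
  have hf : (0 : ℝ) < n.factorial := by exact_mod_cast n.factorial_pos
  have h2 : ((n + 1).factorial : ℝ) = k * n.factorial := by
    rw [Nat.factorial_succ]; push_cast; rw [hkdef]; push_cast; ring
  rw [h2, div_le_iff₀ (by positivity)] at h1
  have h3 : k ≤ 2 ^ (n + 1) := by
    rw [hkdef]
    exact_mod_cast (Nat.lt_two_pow_self (n := n + 1)).le
  have h4 : Real.exp k = (Real.exp 1) ^ (n + 1) := by
    rw [← Real.exp_nat_mul, mul_one]
  have he := Real.exp_one_lt_d9
  have he0 := Real.exp_pos 1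
  have h5 : k ^ (n + 1) ≤ (2 * Real.exp 1) ^ (n + 1) * n.factorial := by
    calc k ^ (n + 1) ≤ Real.exp k * (k * n.factorial) := h1
      _ = (Real.exp 1) ^ (n + 1) * k * n.factorial := by rw [h4]; ring
      _ ≤ (Real.exp 1) ^ (n + 1) * 2 ^ (n + 1) * n.factorial := by gcongr
      _ = _ := by rw [mul_pow]; ring
  calc (k / 40) ^ (n + 1) = k ^ (n + 1) * (1 / 40) ^ (n + 1) := by rw [← mul_pow]; congr 1; ring
    _ ≤ (2 * Real.exp 1) ^ (n + 1) * n.factorial * (1 / 40) ^ (n + 1) := by gcongr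
    _ = n.factorial * (2 * Real.exp 1 * (1 / 40)) ^ (n + 1) := by rw [mul_pow _ (1 / 40 : ℝ)]; ring
    _ ≤ n.factorial * (Real.log 2 / 5) ^ (n + 1) := by
        gcongr
        linarith
    _ ≤ n.factorial * (Real.log 2 / 5) ^ n := by
        refine mul_le_mul_of_nonneg_left ?_ hf.le
        exact pow_le_pow_of_le_one (by linarith) (by linarith) (by omega)

theorem pic_le_real (k X : ℕ) (hk : 1 ≤ k) : (pic k X : ℝ) * ((k : ℝ) / 40) ^ k ≤ X := by
  rcases Nat.eq_zero_or_pos (pic k X) with h | h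
  · rw [h]; simp
  · refine (iter_ge' (pic k X) h k hk).trans ?_
    exact_mod_cast (iter_le_iff k (pic k X) X h).2 (le_refl _)

/-- `u^u v^v ≥ ((u+v)/2)^(u+v)`. -/
theorem entropy (u v : ℕ) (hu : 1 ≤ u) (hv : 1 ≤ v) :
    (((u : ℝ) + v) / 2) ^ (u + v) ≤ (u : ℝ) ^ u * (v : ℝ) ^ v := by
  have hu0 : (0 : ℝ) < u := by exact_mod_cast hu
  have hv0 : (0 : ℝ) < v := by exact_mod_cast hv
  have hs : (0 : ℝ) < (u : ℝ) + v := by linarith
  have h := Real.geom_mean_le_arith_mean2_weighted (w₁ := u / (u + v)) (w₂ := v / (u + v))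
    (p₁ := 1 / u) (p₂ := 1 / v) (by positivity) (by positivity) (by positivity) (by positivity)
    (by field_simp)
  have e1 : (u : ℝ) / (u + v) * (1 / u) + v / (u + v) * (1 / v) = 2 / (u + v) := by
    field_simp
    norm_num
  rw [e1] at h
  have h2 := Real.rpow_le_rpow (by positivity) h hs.le
  rw [Real.mul_rpow (by positivity) (by positivity), ← Real.rpow_mul (by positivity),
    ← Real.rpow_mul (by positivity), div_mul_cancel₀ _ hs.ne', div_mul_cancel₀ _ hs.ne',
    Real.rpow_natCast, Real.rpow_natCast] at h2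
  have e2 : ((u : ℝ) + v) = ((u + v : ℕ) : ℝ) := by push_cast; ring
  rw [e2, Real.rpow_natCast] at h2
  rw [e2]
  have h3 : (0 : ℝ) < ((u + v : ℕ) : ℝ) := by rw [← e2]; exact hs
  rw [one_div, one_div, inv_pow, inv_pow, ← mul_inv, ← inv_div, inv_pow] at h2
  exact (inv_le_inv₀ (by positivity) (by positivity)).1 h2

end Pool.Agent.Lib.MP_e3f158_nt
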