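import Pool.Agent.Lib.MP_dd84fd_nt.Fourier
import Pool.Agent.Lib.MP_dd84fd_nt.WeylSave
import Pool.Agent.Lib.MP_e3f158_nt.Dil2

/-!
# Pseudorandom sequences and polynomial orbits modulo a prime
-/

namespace Pool.Agent.Lib.MP_e3f158_nt

open Finset Filter Pool.Agent.Lib.MP_dd84fd_nt.Weyl Pool.Agent.Lib.MP_dd84fd_nt.WeylSave

/-- Sizes of the sets of residues. -/
theorem size (a : ℕ) : ∀ᶠ q : ℕ in atTop,
    (q : ℝ) / (6 * (2 * Real.log q) ^ (a + 1)) ≤ ((sm a ((q - 1) / 2)).card : ℝ) := by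
  have h1 : Tendsto (fun q : ℕ => (q - 1) / 2) atTop atTop := by
    refine tendsto_atTop_atTop.2 fun n => ⟨2 * n + 1, fun q hq => ?_⟩
    omega
  filter_upwards [h1.eventually (card_sm_ge a), eventually_ge_atTop 9] with q hq hq9
  refine le_trans ?_ hq
  have h2 : (q : ℝ) / 3 ≤ (((q - 1) / 2 : ℕ) : ℝ) := by
    have : q ≤ 3 * ((q - 1) / 2) := by omega
    have h3 : (q : ℝ) ≤ 3 * (((q - 1) / 2 : ℕ) : ℝ) := by exact_mod_cast this
    linarith
  have hqr : (9 : ℝ) ≤ q := by exact_mod_cast hq9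
  have h4 : 0 < Real.log (((q - 1) / 2 : ℕ) : ℝ) := Real.log_pos (by linarith)
  have h5 : Real.log (((q - 1) / 2 : ℕ) : ℝ) ≤ Real.log q := by
    refine Real.log_le_log (by linarith) ?_
    exact_mod_cast (by omega : (q - 1) / 2 ≤ q)
  have h6 : 0 < Real.log q := by linarith
  calc (q : ℝ) / (6 * (2 * Real.log q) ^ (a + 1))
      = (q / 3) / (2 * (2 * Real.log q) ^ (a + 1)) := by
        field_simp
        ring
    _ ≤ (((q - 1) / 2 : ℕ) : ℝ) / (2 * (2 * Real.log (((q - 1) / 2 : ℕ) : ℝ)) ^ (a + 1)) := by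
        refine div_le_div₀ (by positivity) h2 (by positivity) ?_
        gcongr

theorem logs (n : ℕ) (c : ℝ) (hc : 0 < c) : ∀ᶠ q : ℕ in atTop, c * (Real.log q) ^ n ≤ q := by
  have h1 := (Real.isLittleO_pow_log_id_atTop (n := n)).bound (c := 1 / c) (by positivity)
  filter_upwards [tendsto_natCast_atTop_atTop.eventually h1] with q hq
  have h2 : 0 ≤ Real.log q := Real.log_natCast_nonneg q
  simp only [id] at hq
  rw [Real.norm_of_nonneg (by positivity), Real.norm_of_nonneg (by positivity)] at hq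
  calc c * (Real.log q) ^ n ≤ c * (1 / c * q) := by gcongr
    _ = q := by field_simp

/-- Counting the good terms of a sequence from the total number of representations. -/
theorem count_good {q : ℕ} [Fact q.Prime] (a b : ℕ) {ι : Type} (S : Finset ι) (f : ι → ZMod q)
    (hAB : (4 : ℝ) * q ≤ (RA q a).card * (RA q b).card) (hA : (0 : ℝ) < (RA q a).card)
    (hsum : (S.card : ℝ) * (RA q a).card * (RA q b).card / q / 2 ≤
      ∑ s ∈ S, rep2 (RA q a) (RA q b) (f s)) :
    (S.card : ℝ) * (RA q b).card / q / 4 ≤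
      (({s : ι | s ∈ S ∧ Even (f s).val ∧ HasRep a b (f s).val}.ncard : ℕ) : ℝ) := by
  classical
  have hq0 : (0 : ℝ) < q := by exact_mod_cast (Fact.out : q.Prime).pos
  have hSp : (0 : ℝ) ≤ S.card := by positivity
  set G := S.filter fun s => Even (f s).val ∧ HasRep a b (f s).val with hG
  have hGeq : {s : ι | s ∈ S ∧ Even (f s).val ∧ HasRep a b (f s).val} = (G : Set ι) := by
    ext s
    rw [hG, Finset.coe_filter]
  rw [hGeq, Set.ncard_coe_finset]
  have h1 : ∀ s ∈ S, rep2 (RA q a) (RA q b) (f s) ≤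
      1 + (if Even (f s).val ∧ HasRep a b (f s).val then ((RA q a).card : ℝ) else 0) := by
    intro s _
    by_cases h : 1 < rep2 (RA q a) (RA q b) (f s)
    · have hh : Even (f s).val ∧ HasRep a b (f s).val := hasRep_of_rep2 a b _ h
      rw [if_pos hh]
      have := rep2_le_card (RA q a) (RA q b) (f s)
      linarith
    · push Not at h
      have : (0 : ℝ) ≤ (if Even (f s).val ∧ HasRep a b (f s).val
        then ((RA q a).card : ℝ) else 0) := by split_ifs <;> positivity
      linarith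
  have h2 := hsum.trans (Finset.sum_le_sum h1)
  rw [Finset.sum_add_distrib, Finset.sum_const, nsmul_eq_mul, mul_one, ← Finset.sum_filter,
    Finset.sum_const, nsmul_eq_mul, ← hG] at h2
  have h4 : (S.card : ℝ) ≤ S.card * (RA q a).card * (RA q b).card / q / 4 := by
    rw [le_div_iff₀ (by norm_num), le_div_iff₀ hq0]
    nlinarith
  have h5 : (S.card : ℝ) * (RA q a).card * (RA q b).card / q / 4 ≤ G.card * (RA q a).card := by
    have e : (S.card : ℝ) * (RA q a).card * (RA q b).card / q / 2 =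
      S.card * (RA q a).card * (RA q b).card / q / 4 +
        S.card * (RA q a).card * (RA q b).card / q / 4 := by ring
    linarith
  have e : (S.card : ℝ) * (RA q a).card * (RA q b).card / q / 4 =
    (S.card * (RA q b).card / q / 4) * (RA q a).card := by ring
  rw [e] at h5
  exact le_of_mul_le_mul_right h5 hA

/-- **Pseudorandom sequences.** -/
theorem pseudo2 (a b : ℕ) : ∀ᶠ q : ℕ in atTop, ∀ [Fact q.Prime] (ι : Type) (S : Finset ι)
    (f : ι → ZMod q),
    (∀ h : ZMod q, h ≠ 0 → ‖∑ s ∈ S, (ZMod.stdAddChar (h * f s) : ℂ)‖ ≤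
      1 / (12 * 2 ^ (max a b + 1)) * S.card / (Real.log q) ^ (max a b + 1)) →
    1 / (24 * 2 ^ (b + 1)) * S.card / (Real.log q) ^ (b + 1) ≤
      (({s : ι | s ∈ S ∧ Even (f s).val ∧ HasRep a b (f s).val}.ncard : ℕ) : ℝ) := by
  filter_upwards [size a, size b, logs (a + b + 2) (144 * 2 ^ (a + b + 2)) (by positivity),
    eventually_ge_atTop 3] with q hA hB hlog hq3 _ ι S f hM
  have hqr : (3 : ℝ) ≤ q := by exact_mod_cast hq3
  have hq0 : (0 : ℝ) < q := by linarith
  have hL1 : 1 ≤ Real.log q := by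
    rw [Real.le_log_iff_exp_le hq0]
    have := Real.exp_one_lt_d9
    linarith
  rw [← card_RA (q := q)] at hA hB
  set L := Real.log q with hLdef
  have hL : 0 < L := by linarith
  have hA0 : 0 < (q : ℝ) / (6 * (2 * L) ^ (a + 1)) := by positivity
  have hAp : (0 : ℝ) < (RA q a).card := lt_of_lt_of_le hA0 hA
  have hAB : (q : ℝ) ^ 2 / (36 * (2 * L) ^ (a + b + 2)) ≤ (RA q a).card * (RA q b).card := by
    calc (q : ℝ) ^ 2 / (36 * (2 * L) ^ (a + b + 2)) =
        (q : ℝ) / (6 * (2 * L) ^ (a + 1)) * ((q : ℝ) / (6 * (2 * L) ^ (b + 1))) := by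
          rw [show a + b + 2 = (a + 1) + (b + 1) by ring, pow_add]
          field_simp
          norm_num
      _ ≤ _ := by gcongr
  have h3 : (4 : ℝ) * q ≤ (RA q a).card * (RA q b).card := by
    refine le_trans ?_ hAB
    rw [le_div_iff₀ (by positivity), mul_pow]
    calc 4 * (q : ℝ) * (36 * (2 ^ (a + b + 2) * L ^ (a + b + 2)))
        = q * (144 * 2 ^ (a + b + 2) * L ^ (a + b + 2)) := by ring
      _ ≤ q * q := by gcongr
      _ = _ := by ring
  set M : ℝ := 1 / (12 * 2 ^ (max a b + 1)) * S.card / L ^ (max a b + 1) with hMdef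
  have hM0 : 0 ≤ M := by positivity
  have hdev := Pool.Agent.Lib.MP_dd84fd_nt.Fourier.rep2_dev S f (RA q a) (RA q b) M hM hM0
  have hrep : ∑ s ∈ S, Pool.Agent.Lib.MP_dd84fd_nt.Fourier.rep2 (RA q a) (RA q b) (f s) =
      ∑ s ∈ S, rep2 (RA q a) (RA q b) (f s) := rfl
  rw [hrep] at hdev
  have h1 := (abs_le.1 hdev).1
  have hMle : ∀ c : ℕ, c ≤ max a b → (q : ℝ) / (6 * (2 * L) ^ (c + 1)) ≤ (RA q c).card →
      M ≤ S.card * (RA q c).card / q / 2 := by
    intro c hc hcard
    have e1 : (1 : ℝ) / (6 * (2 * L) ^ (max a b + 1)) ≤ (RA q c).card / q := by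
      rw [le_div_iff₀ hq0]
      refine le_trans ?_ hcard
      rw [one_div_mul_eq_div]
      refine div_le_div_of_nonneg_left (by positivity) (by positivity) ?_
      have : (2 * L) ^ (c + 1) ≤ (2 * L) ^ (max a b + 1) :=
        pow_le_pow_right₀ (by linarith) (by omega)
      linarith
    calc M = S.card * (1 / (6 * (2 * L) ^ (max a b + 1))) / 2 := by
          rw [hMdef, mul_pow]
          field_simp
          ring
      _ ≤ S.card * ((RA q c).card / q) / 2 := by gcongr
      _ = _ := by ring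
  have hMA := hMle a (le_max_left _ _) hA
  have hMB := hMle b (le_max_right _ _) hB
  have h5 : M * (((RA q a).card + (RA q b).card : ℝ) / 2) ≤
      S.card * (RA q a).card * (RA q b).card / q / 2 := by
    have e1 : M * (RA q a).card ≤ S.card * (RA q b).card / q / 2 * (RA q a).card := by gcongr
    have e2 : M * (RA q b).card ≤ S.card * (RA q a).card / q / 2 * (RA q b).card := by gcongr
    have e3 : (S.card : ℝ) * (RA q b).card / q / 2 * (RA q a).card =
      S.card * (RA q a).card * (RA q b).card / q / 2 := by ring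
    have e4 : (S.card : ℝ) * (RA q a).card / q / 2 * (RA q b).card =
      S.card * (RA q a).card * (RA q b).card / q / 2 := by ring
    rw [e3] at e1
    rw [e4] at e2
    linarith
  have h6 : (S.card : ℝ) * (RA q a).card * (RA q b).card / q / 2 ≤
      ∑ s ∈ S, rep2 (RA q a) (RA q b) (f s) := by
    have e : (S.card : ℝ) * (RA q a).card * (RA q b).card / q =
      S.card * (RA q a).card * (RA q b).card / q / 2 +
        S.card * (RA q a).card * (RA q b).card / q / 2 := by ring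
    linarith
  refine le_trans ?_ (count_good a b S f h3 hAp h6)
  calc 1 / (24 * 2 ^ (b + 1)) * (S.card : ℝ) / L ^ (b + 1)
      = S.card * ((q : ℝ) / (6 * (2 * L) ^ (b + 1))) / q / 4 := by
        rw [mul_pow]
        field_simp
        ring
    _ ≤ _ := by gcongr

/-- From one block length to arbitrary intervals. -/
theorem intervals {q k : ℕ} [Fact q.Prime] (W : ZMod q → Prop) (N : ℕ) (hN0 : 0 < N) (c : ℝ)
    (hc : 0 ≤ c)
    (hb : ∀ Q : Polynomial (ZMod q), Q.natDegree = k + 1 →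
      c * N ≤ (({x : ℕ | x ∈ range N ∧ W (Q.eval (x : ZMod q))}.ncard : ℕ) : ℝ))
    (P : Polynomial (ZMod q)) (hP : P.natDegree = k + 1) (a L : ℕ) (hNL : N ≤ L) :
    c * L / 2 ≤ (({x : ℕ | (a ≤ x ∧ x < a + L) ∧ W (P.eval (x : ZMod q))}.ncard : ℕ) : ℝ) := by
  have hblock : ∀ j : ℕ, c * N ≤
      (({x : ℕ | (a + N * j ≤ x ∧ x < a + N * (j + 1)) ∧ W (P.eval (x : ZMod q))}.ncard : ℕ) : ℝ) := by
    intro j
    set Q : Polynomial (ZMod q) := P.comp (Polynomial.X + Polynomial.C ((a + N * j : ℕ) : ZMod q))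
      with hQ
    have hQd : Q.natDegree = k + 1 := by
      rw [hQ, Polynomial.natDegree_comp, Polynomial.natDegree_X_add_C, mul_one, hP]
    have h1 := hb Q hQd
    refine h1.trans ?_
    have h2 : ({x : ℕ | x ∈ range N ∧ W (Q.eval (x : ZMod q))}).ncard ≤
        ({x : ℕ | (a + N * j ≤ x ∧ x < a + N * (j + 1)) ∧ W (P.eval (x : ZMod q))}).ncard := by
      refine Set.ncard_le_ncard_of_injOn (fun x => x + (a + N * j)) ?_ ?_ ?_
      · rintro x ⟨hx, hg⟩
        have hx' := mem_range.1 hx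
        refine ⟨⟨by omega, by rw [Nat.mul_succ]; omega⟩, ?_⟩
        rw [hQ, Polynomial.eval_comp] at hg
        simp only [Polynomial.eval_add, Polynomial.eval_X, Polynomial.eval_C] at hg
        push_cast at hg ⊢
        exact hg
      · intro x _ y _ hxy
        exact Nat.add_right_cancel hxy
      · exact (Set.finite_Ico (a + N * j) (a + N * (j + 1))).subset fun x hx => hx.1
    exact_mod_cast h2
  have hsum : ∀ J : ℕ, (J : ℝ) * (c * N) ≤
      (({x : ℕ | (a ≤ x ∧ x < a + N * J) ∧ W (P.eval (x : ZMod q))}.ncard : ℕ) : ℝ) := by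
    intro J
    induction J with
    | zero => simp
    | succ J ih =>
      have h1 := hblock J
      have h2 : ({x : ℕ | (a ≤ x ∧ x < a + N * J) ∧ W (P.eval (x : ZMod q))}).ncard +
          ({x : ℕ | (a + N * J ≤ x ∧ x < a + N * (J + 1)) ∧ W (P.eval (x : ZMod q))}).ncard ≤
          ({x : ℕ | (a ≤ x ∧ x < a + N * (J + 1)) ∧ W (P.eval (x : ZMod q))}).ncard := by
        rw [← Set.ncard_union_eq ?_ ((Set.finite_Ico a (a + N * J)).subset fun x hx => hx.1)
          ((Set.finite_Ico (a + N * J) (a + N * (J + 1))).subset fun x hx => hx.1)]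
        · refine Set.ncard_le_ncard ?_
            ((Set.finite_Ico a (a + N * (J + 1))).subset fun x hx => hx.1)
          rintro x (⟨hx, hg⟩ | ⟨hx, hg⟩)
          · exact ⟨⟨hx.1, by rw [Nat.mul_succ]; omega⟩, hg⟩
          · exact ⟨⟨by omega, hx.2⟩, hg⟩
        · rw [Set.disjoint_left]
          rintro x ⟨hx, _⟩ ⟨hy, _⟩
          omega
      have h3 : ((({x : ℕ | (a ≤ x ∧ x < a + N * J) ∧ W (P.eval (x : ZMod q))}).ncard : ℕ) : ℝ) +
          ((({x : ℕ | (a + N * J ≤ x ∧ x < a + N * (J + 1)) ∧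
            W (P.eval (x : ZMod q))}).ncard : ℕ) : ℝ) ≤
          ((({x : ℕ | (a ≤ x ∧ x < a + N * (J + 1)) ∧
            W (P.eval (x : ZMod q))}).ncard : ℕ) : ℝ) := by
        exact_mod_cast h2
      push_cast
      linarith
  have h1 := hsum (L / N)
  have h2 : ({x : ℕ | (a ≤ x ∧ x < a + N * (L / N)) ∧ W (P.eval (x : ZMod q))}).ncard ≤
      ({x : ℕ | (a ≤ x ∧ x < a + L) ∧ W (P.eval (x : ZMod q))}).ncard := by
    refine Set.ncard_le_ncard ?_ ((Set.finite_Ico a (a + L)).subset fun x hx => hx.1)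
    rintro x ⟨hx, hg⟩
    have := Nat.mul_div_le L N
    exact ⟨⟨hx.1, by omega⟩, hg⟩
  have h3 : (L : ℝ) ≤ 2 * (((L / N : ℕ) : ℝ) * N) := by
    have h4 : L < N * (L / N + 1) := Nat.lt_mul_div_succ L hN0
    have h5 : 1 ≤ L / N := (Nat.one_le_div_iff hN0).2 hNL
    have h6 : N * (L / N + 1) ≤ 2 * ((L / N) * N) := by
      nlinarith
    exact_mod_cast (h4.trans_le h6).le
  calc c * (L : ℝ) / 2 ≤ c * (2 * (((L / N : ℕ) : ℝ) * N)) / 2 := by gcongr
    _ = ((L / N : ℕ) : ℝ) * (c * N) := by ring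
    _ ≤ _ := h1
    _ ≤ _ := by exact_mod_cast h2

/-- **Polynomial orbits.** -/
theorem orbit2 (a b k : ℕ) (hk : 1 ≤ k) (ε : ℝ) (hε : 0 < ε) :
    ∀ᶠ q : ℕ in atTop, ∀ [Fact q.Prime] (P : Polynomial (ZMod q)),
      P.natDegree = k + 1 → ∀ u L : ℕ, (q : ℝ) ^ (1 / ((k : ℝ) + 1) + ε) ≤ L →
      1 / (48 * 2 ^ (b + 1)) * L / (Real.log q) ^ (b + 1) ≤
        (({x : ℕ | (u ≤ x ∧ x < u + L) ∧ Even (P.eval (x : ZMod q)).val ∧
          HasRep a b (P.eval (x : ZMod q)).val}.ncard : ℕ) : ℝ) := by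
  set ε' : ℝ := min ε (1 / 4) with hε'
  have hε'0 : 0 < ε' := lt_min hε (by norm_num)
  have hk1 : (1 : ℝ) ≤ k := by exact_mod_cast hk
  set θ : ℝ := 1 / ((k : ℝ) + 1) + ε' with hθ
  have hθ1 : θ ≤ 3 / 4 := by
    have h1 : 1 / ((k : ℝ) + 1) ≤ 1 / 2 := one_div_le_one_div_of_le (by norm_num) (by linarith)
    have h2 : ε' ≤ 1 / 4 := min_le_right _ _
    linarith
  have hθ0 : 0 ≤ θ := by positivity
  obtain ⟨c, hc, hps⟩ := power_saving k hk ε' hε'0
  -- logarithms against q^(-c)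
  have hlogc : ∀ᶠ q : ℕ in atTop, 12 * 2 ^ (max a b + 1) * (Real.log q) ^ (max a b + 1) ≤
      (q : ℝ) ^ c := by
    have h1 : (fun x : ℝ => Real.log x ^ (max a b + 1)) =o[atTop] fun x => x ^ c := by
      have h := isLittleO_log_rpow_rpow_atTop ((max a b + 1 : ℕ) : ℝ) hc
      simpa only [Real.rpow_natCast] using h
    have h2 := h1.bound (c := 1 / (12 * 2 ^ (max a b + 1))) (by positivity)
    filter_upwards [(tendsto_natCast_atTop_atTop (R := ℝ)).eventually h2] with q hq
    have hl : 0 ≤ Real.log q := Real.log_natCast_nonneg q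
    rw [Real.norm_of_nonneg (by positivity), Real.norm_of_nonneg (by positivity)] at hq
    calc 12 * 2 ^ (max a b + 1) * (Real.log q) ^ (max a b + 1)
        ≤ 12 * 2 ^ (max a b + 1) * (1 / (12 * 2 ^ (max a b + 1)) * (q : ℝ) ^ c) := by gcongr
      _ = _ := by field_simp
  filter_upwards [hps, hlogc, pseudo2 a b, eventually_ge_atTop 100] with
    q h1 h2 h3 hq100 _ P hP u L hL
  have hq0 : (100 : ℝ) ≤ q := by exact_mod_cast hq100
  have hlogq : 0 < Real.log q := Real.log_pos (by linarith)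
  set N : ℕ := ⌈(q : ℝ) ^ θ⌉₊ with hN
  have hN1 : (q : ℝ) ^ θ ≤ N := Nat.le_ceil _
  have hpow : (q : ℝ) ^ θ + 1 ≤ q := by
    have h1 : (q : ℝ) ^ θ ≤ (q : ℝ) ^ (3 / 4 : ℝ) :=
      Real.rpow_le_rpow_of_exponent_le (by linarith) hθ1
    have h2 : (q : ℝ) ^ (3 / 4 : ℝ) * (q : ℝ) ^ (1 / 4 : ℝ) = q := by
      rw [← Real.rpow_add (by linarith)]; norm_num
    have h3 : (2 : ℝ) ≤ (q : ℝ) ^ (1 / 4 : ℝ) := by
      have h4 : (2 : ℝ) = (16 : ℝ) ^ (1 / 4 : ℝ) := by
        rw [show (16 : ℝ) = 2 ^ (4 : ℝ) by norm_num, ← Real.rpow_mul (by norm_num)]; norm_num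
      rw [h4]
      exact Real.rpow_le_rpow (by norm_num) (by linarith) (by norm_num)
    have h5 : (1 : ℝ) ≤ (q : ℝ) ^ (3 / 4 : ℝ) := Real.one_le_rpow (by linarith) (by norm_num)
    nlinarith
  have hNq : N ≤ q := by
    rw [hN]
    refine Nat.ceil_le.2 ?_
    linarith
  have hN0 : 0 < N := by
    have : (0 : ℝ) < N := lt_of_lt_of_le (by positivity) hN1
    exact_mod_cast this
  have hNL : N ≤ L := by
    rw [hN]
    refine Nat.ceil_le.2 (le_trans (Real.rpow_le_rpow_of_exponent_le (by linarith) ?_) hL)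
    have : ε' ≤ ε := min_le_left _ _
    linarith
  have hblk : ∀ Q : Polynomial (ZMod q), Q.natDegree = k + 1 →
      1 / (24 * 2 ^ (b + 1)) / (Real.log q) ^ (b + 1) * N ≤
        (({x : ℕ | x ∈ range N ∧ (Even (Q.eval (x : ZMod q)).val ∧
          HasRep a b (Q.eval (x : ZMod q)).val)}.ncard : ℕ) : ℝ) := by
    intro Q hQ
    have h4 := h3 ℕ (range N) (fun x => Q.eval (x : ZMod q)) ?_
    · rw [card_range] at h4
      refine le_trans (le_of_eq ?_) h4
      ring
    intro h hh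
    rw [card_range]
    have hd : (Polynomial.C h * Q).natDegree = k + 1 := by
      rw [Polynomial.natDegree_C_mul hh, hQ]
    have h5 := h1 (Polynomial.C h * Q) hd N hN1 hNq
    have h6 : T (fun x => (Polynomial.C h * Q).eval (x : ZMod q)) N =
        ‖∑ s ∈ range N, (ZMod.stdAddChar (h * Q.eval (s : ZMod q)) : ℂ)‖ := by
      unfold T
      congr 1
      refine sum_congr rfl fun x _ => ?_
      change (ZMod.stdAddChar ((Polynomial.C h * Q).eval (x : ZMod q)) : ℂ) = _
      rw [Polynomial.eval_mul, Polynomial.eval_C]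
    rw [h6] at h5
    refine h5.trans ?_
    rw [Real.rpow_neg (by linarith), ← div_eq_mul_inv]
    rw [div_le_div_iff₀ (Real.rpow_pos_of_pos (by linarith) c) (by positivity)]
    calc (N : ℝ) * (Real.log q) ^ (max a b + 1)
        = 1 / (12 * 2 ^ (max a b + 1)) * N *
          (12 * 2 ^ (max a b + 1) * (Real.log q) ^ (max a b + 1)) := by
          field_simp
      _ ≤ _ := by gcongr
  have hmain := intervals (k := k) (W := fun x => Even x.val ∧ HasRep a b x.val) N hN0
    (1 / (24 * 2 ^ (b + 1)) / (Real.log q) ^ (b + 1)) (by positivity) hblk P hP u L hNL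
  refine le_trans (le_of_eq ?_) hmain
  field_simp
  ring

end Pool.Agent.Lib.MP_e3f158_nt
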