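import Pool.Agent.Lib.MP_dd84fd_nt.Farey
import Pool.Agent.Lib.MP_e3f158_nt.Dil2

/-!
# Sums of two sets in residue classes
-/

namespace Pool.Agent.Lib.MP_e3f158_nt

open Finset Filter Pool.Agent.Lib.MP_dd84fd_nt.Farey

/-- the variance of a set in the residue classes mod `q` -/
noncomputable def Vq (A : Finset ℕ) (q : ℕ) : ℝ := q * Eq' A q - (A.card : ℝ) ^ 2

/-- deviation of the number of pairs in a residue class -/
theorem pairs_dev (A B : Finset ℕ) (q : ℕ) [NeZero q] (b : ZMod q) :
    ((A.card : ℝ) * B.card -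
      q * ((A ×ˢ B).filter (fun x => ((x.1 : ZMod q) + (x.2 : ZMod q) = b))).card) ^ 2 ≤
      Vq A q * Vq B q := by
  have hq : (0 : ℝ) < q := by exact_mod_cast Nat.pos_of_ne_zero (NeZero.ne q)
  set Z : Finset ℕ → ZMod q → ℝ := fun A h => ∑ p ∈ A, if (p : ZMod q) = h then 1 else 0 with hZ
  have hsum : ∀ (A : Finset ℕ) (W : ZMod q → ℝ), ∑ h, Z A h * W h = ∑ p ∈ A, W p := by
    intro A W
    simp only [hZ, Finset.sum_mul]
    rw [Finset.sum_comm]
    refine Finset.sum_congr rfl (fun p _ => ?_)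
    simp [ite_mul]
  have h1 : ∀ A : Finset ℕ, ∑ h, Z A h = A.card := by
    intro A
    have := hsum A (fun _ => 1)
    simpa using this
  have h2 : ∀ A : Finset ℕ, ∑ h, Z A h * Z A h = Eq' A q := by
    intro A
    rw [hsum]
    unfold Eq'
    rw [Finset.card_filter, Finset.sum_product]
    push_cast
    refine Finset.sum_congr rfl (fun p _ => ?_)
    simp only [hZ]
    refine Finset.sum_congr rfl (fun p' _ => ?_)
    have : ((p' : ZMod q) = (p : ZMod q)) ↔ ((q : ℤ) ∣ (p : ℤ) - p') := by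
      rw [← ZMod.intCast_zmod_eq_zero_iff_dvd]
      push_cast
      rw [sub_eq_zero, eq_comm]
    by_cases h : (q : ℤ) ∣ (p : ℤ) - p'
    · rw [if_pos (this.mpr h), if_pos h]
    · rw [if_neg (fun h' => h (this.mp h')), if_neg h]
  have h3 : ∑ h, Z A h * Z B (b - h)
      = ((A ×ˢ B).filter (fun x => ((x.1 : ZMod q) + (x.2 : ZMod q) = b))).card := by
    rw [hsum A (fun h => Z B (b - h))]
    rw [Finset.card_filter, Finset.sum_product]
    push_cast
    refine Finset.sum_congr rfl (fun p _ => ?_)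
    simp only [hZ]
    refine Finset.sum_congr rfl (fun p' _ => ?_)
    have : ((p' : ZMod q) = b - (p : ZMod q)) ↔ ((p : ZMod q) + (p' : ZMod q) = b) := by
      rw [eq_sub_iff_add_eq, add_comm]
    by_cases h : (p : ZMod q) + (p' : ZMod q) = b
    · rw [if_pos (this.mpr h), if_pos h]
    · rw [if_neg (fun h' => h (this.mp h')), if_neg h]
  have hrefl : ∀ W : ZMod q → ℝ, ∑ h, W (b - h) = ∑ h, W h := by
    intro W
    exact Fintype.sum_equiv (Equiv.subLeft b) _ _ (fun _ => rfl)
  have hconst : ∀ c : ℝ, ∑ _h : ZMod q, c = q * c := by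
    intro c
    rw [Finset.sum_const, Finset.card_univ, ZMod.card, nsmul_eq_mul]
  -- centred sums
  have hvar : ∀ A : Finset ℕ, ∑ h, (Z A h - A.card / q) ^ 2 = Vq A q / q := by
    intro A
    have e : ∀ h, (Z A h - A.card / q) ^ 2 =
        Z A h * Z A h - 2 * (A.card / q) * Z A h + (A.card / q) ^ 2 := by intro h; ring
    rw [sum_congr rfl fun h _ => e h, sum_add_distrib, sum_sub_distrib, ← mul_sum, h1, h2, hconst,
      Vq]
    field_simp
    ring
  have hcov : ∑ h, (Z A h - A.card / q) * (Z B (b - h) - B.card / q) =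
      ((A ×ˢ B).filter (fun x => ((x.1 : ZMod q) + (x.2 : ZMod q) = b))).card -
        (A.card : ℝ) * B.card / q := by
    have e : ∀ h, (Z A h - A.card / q) * (Z B (b - h) - B.card / q) =
        Z A h * Z B (b - h) - (B.card / q) * Z A h - (A.card / q) * Z B (b - h) +
          (A.card / q) * (B.card / q) := by intro h; ring
    rw [sum_congr rfl fun h _ => e h, sum_add_distrib, sum_sub_distrib, sum_sub_distrib, ← mul_sum,
      ← mul_sum, hrefl (fun h => Z B h), h1, h1, h3, hconst]
    field_simp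
    ring
  have hCS := Finset.sum_mul_sq_le_sq_mul_sq univ (fun h => Z A h - A.card / q)
    (fun h => Z B (b - h) - B.card / q)
  rw [hcov, hvar, hrefl (fun h => (Z B h - B.card / q) ^ 2), hvar] at hCS
  have e : ((A.card : ℝ) * B.card -
      q * ((A ×ˢ B).filter (fun x => ((x.1 : ZMod q) + (x.2 : ZMod q) = b))).card) ^ 2 =
      q ^ 2 * (((A ×ˢ B).filter (fun x => ((x.1 : ZMod q) + (x.2 : ZMod q) = b))).card -
        (A.card : ℝ) * B.card / q) ^ 2 := by
    rw [← mul_pow, mul_sub, mul_div_cancel₀ _ hq.ne', ← neg_sub, neg_sq]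
  rw [e]
  calc _ ≤ (q : ℝ) ^ 2 * (Vq A q / q * (Vq B q / q)) := by gcongr
    _ = _ := by field_simp

theorem Vq_eq (A : Finset ℕ) (q : ℕ) (hq : 0 < q) :
    Vq A q = ∑ a ∈ Ico 1 q, F1 A ((a : ℝ) / q) := by
  have hsum := sum_F1 A q hq
  have e1 : ∑ a ∈ range q, F1 A ((a : ℝ) / q)
      = F1 A 0 + ∑ a ∈ Ico 1 q, F1 A ((a : ℝ) / q) := by
    rw [Finset.range_eq_Ico, Finset.sum_eq_sum_Ico_succ_bot hq]
    simp
  rw [e1, F1_zero] at hsum
  unfold Vq
  linarith

theorem Vq_nonneg (A : Finset ℕ) (q : ℕ) (hq : 0 < q) : 0 ≤ Vq A q := by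
  rw [Vq_eq A q hq]
  exact sum_nonneg fun _ _ => F1_nonneg _ _

/-- A modulus with small variance: every class contains an even integer of type `(a, b)`. -/
theorem good_class (a b Y q r : ℕ) (hq : 0 < q) (hqodd : Odd q) (hqY : q ≤ Y)
    (hbig : 4 * (Y : ℝ) < (sm a Y).card * (sm b Y).card)
    (hV : Vq (sm a Y) q * Vq (sm b Y) q ≤ ((sm a Y).card * (sm b Y).card / 2 : ℝ) ^ 2) :
    ∃ n : ℕ, Even n ∧ n ≤ 2 * Y ∧ n ≡ r [MOD q] ∧ HasRep a b n := by
  classical
  have : NeZero q := ⟨hq.ne'⟩
  have hqr : (0 : ℝ) < q := by exact_mod_cast hq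
  by_contra hno
  push Not at hno
  set A := sm a Y with hA
  set B := sm b Y with hB
  have h1 := pairs_dev A B q (r : ZMod q)
  set W := (A ×ˢ B).filter (fun x => ((x.1 : ZMod q) + (x.2 : ZMod q) = (r : ZMod q))) with hW
  have h2 : (A.card : ℝ) * B.card / 2 ≤ q * W.card := by
    have h3 := abs_le_of_sq_le_sq' (h1.trans hV) (by positivity)
    linarith [h3.2]
  -- all pairs are diagonal
  have hdiag : W.card ≤ Y / q + 1 := by
    have h3 : W.card ≤ (range (Y / q + 1)).card := by
      refine card_le_card_of_injOn (fun x => x.1 / q) ?_ ?_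
      · intro x hx
        rw [mem_coe, hW, mem_filter, mem_product] at hx
        rw [mem_coe, mem_range]
        have h4 := (mem_sm hx.1.1).2.1
        exact Nat.lt_succ_of_le (Nat.div_le_div_right h4)
      · intro x hx y hy hxy
        rw [mem_coe, hW, mem_filter, mem_product] at hx hy
        simp only at hxy
        have key : ∀ x : ℕ × ℕ, (x.1 ∈ A ∧ x.2 ∈ B) ∧
            ((x.1 : ZMod q) + (x.2 : ZMod q) = (r : ZMod q)) → x.1 = x.2 := by
          intro x hx
          by_contra hne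
          obtain ⟨u, hu, hu'⟩ := (mem_sm hx.1.1).2.2.2
          obtain ⟨v, hv, hv'⟩ := (mem_sm hx.1.2).2.2.2
          refine hno (x.1 + x.2) ((mem_sm hx.1.1).2.2.1.add_odd (mem_sm hx.1.2).2.2.1) ?_ ?_
            ⟨u, v, hu, hv, by rw [hu', hv'], by rw [hu', hv']; exact hne⟩
          · have := (mem_sm hx.1.1).2.1
            have := (mem_sm hx.1.2).2.1
            omega
          · rw [← ZMod.natCast_eq_natCast_iff]
            push_cast
            exact hx.2
        have hx' := key x hx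
        have hy' := key y hy
        have h5 : (2 * x.1 : ℕ) ≡ 2 * y.1 [MOD q] := by
          rw [← ZMod.natCast_eq_natCast_iff]
          have e1 := hx.2
          have e2 := hy.2
          rw [← hx'] at e1
          rw [← hy'] at e2
          push_cast
          rw [two_mul, two_mul, e1, e2]
        have h6 : x.1 ≡ y.1 [MOD q] :=
          Nat.ModEq.cancel_left_of_coprime (Nat.coprime_two_right.2 hqodd) h5
        have h7 : x.1 = y.1 := by
          have h8 : x.1 % q = y.1 % q := h6
          rw [← Nat.div_add_mod x.1 q, ← Nat.div_add_mod y.1 q, hxy, h8]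
        exact Prod.ext h7 (by rw [← hx', ← hy', h7])
    rwa [card_range] at h3
  have h4 : (W.card : ℝ) ≤ Y / q + 1 := by
    calc (W.card : ℝ) ≤ ((Y / q + 1 : ℕ) : ℝ) := by exact_mod_cast hdiag
      _ = ((Y / q : ℕ) : ℝ) + 1 := by push_cast; ring
      _ ≤ (Y : ℝ) / q + 1 := by
          have := Nat.cast_div_le (α := ℝ) (m := Y) (n := q)
          linarith
  have h5 : (q : ℝ) * W.card ≤ 2 * Y := by
    calc (q : ℝ) * W.card ≤ q * (Y / q + 1) := by gcongr
      _ = Y + q := by field_simp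
      _ ≤ 2 * Y := by
          have : (q : ℝ) ≤ Y := by exact_mod_cast hqY
          linarith
  linarith

end Pool.Agent.Lib.MP_e3f158_nt
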